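import Mathlib
import Pool.Agent.N442.LP.Cnt

/-!
# Counting in `r`-graphs: the density theorem for a condition on blow-ups
-/

set_option autoImplicit false

open Finset
open scoped Classical

namespace Pool.Agent.N442.ES

open Pool.Agent.Y47.BU Pool.Agent.N442.LP

/-- injective maps which induce the pattern `X` -/
noncomputable def SR (r : ℕ) {k n : ℕ} (G : Finset (Finset (Fin n))) (X : Finset (Finset (Fin k))) :
    Finset (Fin k → Fin n) :=
  univ.filter fun φ => Function.Injective φ ∧ ∀ e : Finset (Fin k), e.card = r →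
    (e.image φ ∈ G ↔ e ∈ X)

/-- ordered edges -/
noncomputable def QR (r : ℕ) {n : ℕ} (G : Finset (Finset (Fin n))) : Finset (Fin r → Fin n) :=
  univ.filter fun f => Function.Injective f ∧ univ.image f ∈ G

theorem QR_le (r : ℕ) {n : ℕ} (G : Finset (Finset (Fin n))) : (QR r G).card ≤ n ^ r := by
  refine (card_le_card (filter_subset _ _)).trans (le_of_eq ?_)
  rw [card_univ, Fintype.card_fun, Fintype.card_fin, Fintype.card_fin]

theorem mem_SR_pat (r : ℕ) {k n : ℕ} (G : Finset (Finset (Fin n))) {φ : Fin k → Fin n}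
    (h : Function.Injective φ) : φ ∈ SR r G (pat G φ) := by
  refine mem_filter.mpr ⟨mem_univ _, h, fun e _ => ?_⟩
  unfold pat
  rw [mem_filter]
  simp

theorem inj_card_r (r k : ℕ) : ((univ : Finset (Fin r → Fin k)).filter Function.Injective).card =
    k.descFactorial r := by
  rw [← Fintype.card_subtype, Fintype.card_congr (Equiv.subtypeInjectiveEquivEmbedding (Fin r) (Fin k)),
    Fintype.card_embedding_eq, Fintype.card_fin, Fintype.card_fin]

/-- the average density of the pattern of a map -/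
theorem avg_r (r : ℕ) {k n : ℕ} (G : Finset (Finset (Fin n))) :
    k.descFactorial r * ((QR r G).card * n ^ (k - r)) ≤
      ∑ φ : Fin k → Fin n, (QR r (pat G φ)).card := by
  have h1 : ∑ φ : Fin k → Fin n, (QR r (pat G φ)).card =
      ∑ e ∈ (univ : Finset (Fin r → Fin k)).filter Function.Injective,
        ((univ : Finset (Fin k → Fin n)).filter
          fun φ => (univ.image fun a => φ (e a)) ∈ G).card := by
    have e1 : ∀ φ : Fin k → Fin n, (QR r (pat G φ)).card =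
        ∑ e ∈ (univ : Finset (Fin r → Fin k)).filter Function.Injective,
          if (univ.image fun a => φ (e a)) ∈ G then 1 else 0 := by
      intro φ
      rw [← card_filter, filter_filter]
      congr 1
      unfold QR pat
      ext e
      simp only [mem_filter, mem_univ, true_and, image_image, Function.comp_def]
    simp only [e1]
    rw [sum_comm]
    refine sum_congr rfl fun e _ => ?_
    rw [card_filter]
  rw [h1, ← inj_card_r r k, ← smul_eq_mul, ← sum_const]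
  refine sum_le_sum fun e he => ?_
  have h2 := pull_ge (V := Fin n) e (mem_filter.mp he).2 (QR r G)
  rw [Fintype.card_fin, Fintype.card_fin, Fintype.card_fin] at h2
  refine h2.trans ?_
  have h4 : ((univ : Finset (Fin k → Fin n)).filter fun w => w ∘ e ∈ QR r G).card ≤
      ((univ : Finset (Fin k → Fin n)).filter
        fun φ => (univ.image fun a => φ (e a)) ∈ G).card := by
    refine card_le_card ?_
    intro φ hφ
    have h3 := (mem_filter.mp hφ).2
    unfold QR at h3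
    exact mem_filter.mpr ⟨mem_univ _, (mem_filter.mp h3).2.2⟩
  refine le_trans (le_of_eq ?_) h4
  exact congrArg card (by ext w; simp only [mem_filter, mem_univ])

/-- ordered edges and edges -/
theorem QR_card (r : ℕ) {n : ℕ} (G : Finset (Finset (Fin n))) (hr : ∀ e ∈ G, e.card = r) :
    (QR r G).card = r.factorial * G.card := by
  have h1 : (QR r G).card = ∑ e ∈ G, ((QR r G).filter fun f => univ.image f = e).card :=
    card_eq_sum_card_fiberwise fun f hf => (mem_filter.mp (mem_coe.mp hf)).2.2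
  rw [h1]
  have h2 : ∀ e ∈ G, ((QR r G).filter fun f => univ.image f = e).card = r.factorial := by
    intro e he
    have h3 : ((QR r G).filter fun f => univ.image f = e).card =
        Fintype.card (Fin r ↪ {x // x ∈ e}) := by
      rw [← Fintype.card_coe]
      refine Fintype.card_congr ⟨fun f => ⟨fun a => ⟨f.1 a, ?_⟩, ?_⟩, fun g =>
        ⟨fun a => (g a).1, ?_⟩, ?_, ?_⟩
      · have h4 := (mem_filter.mp f.2).2
        exact h4.subset (mem_image_of_mem _ (mem_univ _))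
      · intro a b hab
        exact (mem_filter.mp (mem_filter.mp f.2).1).2.1 (congrArg Subtype.val hab)
      · have hinj : Function.Injective fun a => (g a).1 := fun a b hab =>
          g.injective (Subtype.ext hab)
        have himg : univ.image (fun a => (g a).1) = e := by
          refine eq_of_subset_of_card_le ?_ ?_
          · intro x hx
            obtain ⟨a, -, rfl⟩ := mem_image.mp hx
            exact (g a).2
          · rw [card_image_of_injective _ hinj, card_univ, Fintype.card_fin, hr e he]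
        refine mem_filter.mpr ⟨mem_filter.mpr ⟨mem_univ _, hinj, ?_⟩, himg⟩
        rw [himg]
        exact he
      · intro f
        rfl
      · intro g
        rfl
    rw [h3, Fintype.card_embedding_eq, Fintype.card_coe, hr e he, Fintype.card_fin,
      Nat.descFactorial_self]
  rw [sum_congr rfl h2, sum_const, smul_eq_mul, mul_comm]

theorem desc_lower (r k : ℕ) : (k : ℝ) ^ r ≤ ((k.descFactorial r : ℕ) : ℝ) +
    (r : ℝ) ^ 2 * (k : ℝ) ^ (r - 1) := by
  have h1 := deg_count' r k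
  have h2 : ((univ : Finset (Fin r → Fin k)).filter Function.Injective).card +
      ((univ : Finset (Fin r → Fin k)).filter fun y => ¬ Function.Injective y).card = k ^ r := by
    rw [card_filter_add_card_filter_not, card_univ, Fintype.card_fun, Fintype.card_fin,
      Fintype.card_fin]
  rw [inj_card_r] at h2
  have h3 : k ^ r ≤ k.descFactorial r + r ^ 2 * k ^ (r - 1) := by omega
  exact_mod_cast h3

/-- few tuples with all large blow-ups bad -/
theorem few_gen (k T : ℕ) (hk : 0 < k) (hT : 0 < T) {C c : ℝ} (hC : 0 ≤ C) (hc : 0 < c) :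
    ∃ δ : ℝ, 0 < δ ∧ ∃ N : ℕ, ∀ n : ℕ, N ≤ n → ∀ (S : Finset (Fin k → Fin n))
      (B : Finset (Fin k → Fin T → Fin n)) (q : ℝ), (B.card : ℝ) ≤ C * q * (n : ℝ) ^ (k * T) →
      q ≤ δ → (∀ y : Fin k → Fin T → Fin n, (∀ f : Fin k → Fin T, (fun i => y i (f i)) ∈ S) →
        (∀ i, Function.Injective (y i)) → y ∈ B) → (S.card : ℝ) ≤ c * (n : ℝ) ^ k := by
  set c' : ℝ := c ^ (T ^ k) with hc'
  have hc'0 : 0 < c' := by positivity
  obtain ⟨N, hN⟩ := exists_nat_gt (2 * ((k * T : ℕ) : ℝ) ^ 2 / c')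
  refine ⟨c' / (2 * (C + 1)), by positivity, max N 1, fun n hn S B q hB hqd hl => ?_⟩
  by_contra hcon
  push Not at hcon
  have hn1 : 1 ≤ n := (le_max_right _ _).trans hn
  have hn0 : (0 : ℝ) < n := by exact_mod_cast hn1
  have hnN : 2 * ((k * T : ℕ) : ℝ) ^ 2 / c' < n :=
    hN.trans_le (by exact_mod_cast (le_max_left _ _).trans hn)
  rw [div_lt_iff₀ hc'0] at hnN
  have h1 := bl_card (V := Fin n) (n := (n : ℝ)) (by rw [Fintype.card_fin]) hn0 hT k S
  have h2 : c' ≤ ((S.card : ℝ) / (n : ℝ) ^ k) ^ (T ^ k) := by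
    rw [hc']
    refine pow_le_pow_left₀ hc.le ?_ _
    rw [le_div_iff₀ (by positivity)]
    exact hcon.le
  have h3 : c' * (n : ℝ) ^ (k * T) ≤ ((Bl k T S).card : ℝ) := by
    refine le_trans ?_ h1
    rw [mul_comm]
    exact mul_le_mul_of_nonneg_left h2 (by positivity)
  have h4 : (Bl k T S).card ≤
      ((univ : Finset (Fin k → Fin T → Fin n)).filter fun y => ¬ ∀ i, Function.Injective (y i)).card +
      B.card := by
    refine (card_le_card ?_).trans (card_union_le _ _)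
    intro y hy
    have hy' : ∀ f : Fin k → Fin T, (fun i => y i (f i)) ∈ S := by
      simp only [Bl, mem_filter, mem_univ, true_and] at hy
      exact hy
    rw [mem_union]
    by_cases h : ∀ i, Function.Injective (y i)
    · right
      exact hl y hy' h
    · left
      exact mem_filter.mpr ⟨mem_univ _, h⟩
  have h5 : ((Bl k T S).card : ℝ) ≤
      ((k * T : ℕ) : ℝ) ^ 2 * (n : ℝ) ^ (k * T - 1) + C * q * (n : ℝ) ^ (k * T) := by
    have a1 := (Nat.cast_le (α := ℝ)).2 h4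
    have a2 := (Nat.cast_le (α := ℝ)).2 (deg_count k T n)
    rw [Nat.cast_add] at a1
    rw [Nat.cast_mul, Nat.cast_pow, Nat.cast_pow] at a2
    linarith
  have hkT : 1 ≤ k * T := Nat.mul_pos hk hT
  have h6 : (n : ℝ) ^ (k * T) = (n : ℝ) ^ (k * T - 1) * n := by
    rw [← pow_succ]; congr 1; omega
  set Y : ℝ := (n : ℝ) ^ (k * T - 1) with hY
  have hY0 : 0 < Y := by positivity
  rw [h6] at h3 h5
  have h7 : C * q * (Y * n) ≤ c' / 2 * (Y * n) := by
    refine mul_le_mul_of_nonneg_right ?_ (by positivity)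
    have : C * q ≤ C * (c' / (2 * (C + 1))) := mul_le_mul_of_nonneg_left hqd hC
    refine this.trans ?_
    rw [mul_div_assoc', div_le_div_iff₀ (by positivity) (by positivity)]
    nlinarith
  have h8 : ((k * T : ℕ) : ℝ) ^ 2 * Y < c' / 2 * (Y * n) := by
    have : ((k * T : ℕ) : ℝ) ^ 2 < c' / 2 * n := by linarith
    calc ((k * T : ℕ) : ℝ) ^ 2 * Y < c' / 2 * n * Y := mul_lt_mul_of_pos_right this hY0
      _ = c' / 2 * (Y * n) := by ring
  linarith

/-- **The density theorem.** -/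
theorem main_r (r : ℕ) (ρ : ℝ) (Gd : ∀ n : ℕ, Finset (Finset (Fin n)) → Prop)
    (Bd : ∀ (k T n : ℕ), Finset (Finset (Fin n)) → (Fin k → Fin T → Fin n) → Prop)
    (q : ∀ n : ℕ, Finset (Finset (Fin n)) → ℝ) (hρ : 0 ≤ ρ) (hr : 1 ≤ r)
    (hq : ∀ k T : ℕ, ∃ C : ℝ, 0 ≤ C ∧ ∀ n : ℕ, 0 < n → ∀ G : Finset (Finset (Fin n)),
      (((univ : Finset (Fin k → Fin T → Fin n)).filter (Bd k T n G)).card : ℝ) ≤
        C * q n G * (n : ℝ) ^ (k * T))
    (hloc : ∀ k : ℕ, 0 < k → ∃ T : ℕ, 0 < T ∧ ∀ (n : ℕ) (G : Finset (Finset (Fin n))), Gd n G →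
      ∀ (X : Finset (Finset (Fin k))) (y : Fin k → Fin T → Fin n),
      (∀ f : Fin k → Fin T, (fun i => y i (f i)) ∈ SR r G X) → (∀ i, Function.Injective (y i)) →
      ρ * (k : ℝ) ^ r < ((QR r X).card : ℝ) → Bd k T n G y)
    {ε : ℝ} (hε : 0 < ε) : ∃ δ : ℝ, 0 < δ ∧ ∃ N : ℕ, ∀ n : ℕ, N ≤ n →
      ∀ G : Finset (Finset (Fin n)), (∀ e ∈ G, e.card = r) → Gd n G → q n G ≤ δ →
      (G.card : ℝ) ≤ (ρ + ε) * (n.choose r : ℝ) := by
  obtain ⟨η, hη⟩ : ∃ η : ℝ, η = ε / 8 := ⟨_, rfl⟩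
  have hη0 : 0 < η := by rw [hη]; positivity
  obtain ⟨k0, hk0⟩ := exists_nat_gt ((r : ℝ) ^ 2 / η)
  set k := max k0 r with hk
  have hkr : r ≤ k := le_max_right _ _
  have hk1 : 0 < k := by omega
  have hkη : (r : ℝ) ^ 2 / η < k := hk0.trans_le (by exact_mod_cast le_max_left _ _)
  have hkR : (0 : ℝ) < k := by exact_mod_cast hk1
  rw [div_lt_iff₀ hη0] at hkη
  set M : ℝ := (Fintype.card (Finset (Finset (Fin k))) : ℝ) with hM
  have hM0 : 0 < M := by
    rw [hM]
    exact_mod_cast Fintype.card_pos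
  obtain ⟨T, hT, hl⟩ := hloc k hk1
  obtain ⟨C, hC, hCq⟩ := hq k T
  obtain ⟨δ, hδ, N, hN⟩ := few_gen k T hk1 hT hC (c := η / M) (by positivity)
  obtain ⟨N2, hN2⟩ := exists_nat_gt (((k : ℝ) ^ 2) / η)
  obtain ⟨N3, hN3⟩ := exists_nat_gt ((r : ℝ) ^ 2 * (ρ + 8 * η) / (5 * η))
  refine ⟨δ, hδ, max (max N N2) (max N3 r), fun n hn G h3 hK hqd => ?_⟩
  have hnN : N ≤ n := (le_max_left _ _).trans ((le_max_left _ _).trans hn)
  have hnN2 : ((k : ℝ) ^ 2) / η < n :=
    hN2.trans_le (by exact_mod_cast (le_max_right _ _).trans ((le_max_left _ _).trans hn))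
  have hnN3 : (r : ℝ) ^ 2 * (ρ + 8 * η) / (5 * η) < n :=
    hN3.trans_le (by exact_mod_cast (le_max_left _ _).trans ((le_max_right _ _).trans hn))
  have hnr : r ≤ n := (le_max_right _ _).trans ((le_max_right _ _).trans hn)
  have hn1 : 0 < n := by omega
  have hn0 : (0 : ℝ) < n := by exact_mod_cast hn1
  rw [div_lt_iff₀ hη0] at hnN2
  rw [div_lt_iff₀ (by positivity)] at hnN3
  have hSX : ∀ X : Finset (Finset (Fin k)), ρ * (k : ℝ) ^ r < ((QR r X).card : ℝ) →
      ((SR r G X).card : ℝ) ≤ η / M * (n : ℝ) ^ k := fun X hX =>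
    hN n hnN (SR r G X) _ (q n G) (hCq n hn1 G) hqd
      (fun y h1 h2 => mem_filter.mpr ⟨mem_univ _, hl n G hK X y h1 h2 hX⟩)
  -- the maps
  set B1 : Finset (Fin k → Fin n) := univ.filter fun φ => Function.Injective φ ∧
    ρ * (k : ℝ) ^ r < ((QR r (pat G φ)).card : ℝ) with hB1
  set B2 : Finset (Fin k → Fin n) := univ.filter fun φ => ¬ Function.Injective φ with hB2
  have hB1c : (B1.card : ℝ) ≤ η * (n : ℝ) ^ k := by
    have h1 : B1 ⊆ (univ.filter fun X : Finset (Finset (Fin k)) =>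
        ρ * (k : ℝ) ^ r < ((QR r X).card : ℝ)).biUnion fun X => SR r G X := by
      intro φ hφ
      have h := (mem_filter.mp hφ).2
      rw [mem_biUnion]
      exact ⟨pat G φ, mem_filter.mpr ⟨mem_univ _, h.2⟩, mem_SR_pat r G h.1⟩
    have h2 := (card_le_card h1).trans card_biUnion_le
    have h3 : (B1.card : ℝ) ≤ ∑ X ∈ (univ.filter fun X : Finset (Finset (Fin k)) =>
        ρ * (k : ℝ) ^ r < ((QR r X).card : ℝ)), ((SR r G X).card : ℝ) := by exact_mod_cast h2
    refine h3.trans ((sum_le_sum fun X hX => hSX X (mem_filter.mp hX).2).trans ?_)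
    rw [sum_const, nsmul_eq_mul]
    have h4 : ((univ.filter fun X : Finset (Finset (Fin k)) =>
        ρ * (k : ℝ) ^ r < ((QR r X).card : ℝ)).card : ℝ) ≤ M := by
      rw [hM]
      exact_mod_cast card_le_univ _
    calc _ ≤ M * (η / M * (n : ℝ) ^ k) := mul_le_mul_of_nonneg_right h4 (by positivity)
      _ = η * (n : ℝ) ^ k := by field_simp
  have hB2c : (B2.card : ℝ) ≤ (k : ℝ) ^ 2 * (n : ℝ) ^ (k - 1) := by
    have := deg_count' k n
    exact_mod_cast this
  have hsum : (∑ φ : Fin k → Fin n, ((QR r (pat G φ)).card : ℝ)) ≤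
      ρ * (k : ℝ) ^ r * (n : ℝ) ^ k + (k : ℝ) ^ r * B1.card + (k : ℝ) ^ r * B2.card := by
    have h1 : ∀ φ : Fin k → Fin n, ((QR r (pat G φ)).card : ℝ) ≤ ρ * (k : ℝ) ^ r +
        (k : ℝ) ^ r * (if φ ∈ B1 then 1 else 0) + (k : ℝ) ^ r * (if φ ∈ B2 then 1 else 0) := by
      intro φ
      have h2 : ((QR r (pat G φ)).card : ℝ) ≤ (k : ℝ) ^ r := by exact_mod_cast QR_le r _
      have h3 : (0 : ℝ) ≤ ρ * (k : ℝ) ^ r := by positivity
      have h4 : (0 : ℝ) ≤ (k : ℝ) ^ r := by positivity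
      by_cases hi : Function.Injective φ
      · by_cases hb : ρ * (k : ℝ) ^ r < ((QR r (pat G φ)).card : ℝ)
        · have : φ ∈ B1 := mem_filter.mpr ⟨mem_univ _, hi, hb⟩
          rw [if_pos this]
          split_ifs <;> linarith
        · push Not at hb
          split_ifs <;> linarith
      · have : φ ∈ B2 := mem_filter.mpr ⟨mem_univ _, hi⟩
        rw [if_pos this]
        split_ifs <;> linarith
    refine (sum_le_sum fun φ _ => h1 φ).trans (le_of_eq ?_)
    have e0 : (∑ _φ : Fin k → Fin n, ρ * (k : ℝ) ^ r) = ρ * (k : ℝ) ^ r * (n : ℝ) ^ k := by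
      rw [sum_const, card_univ, Fintype.card_fun, Fintype.card_fin, Fintype.card_fin, nsmul_eq_mul]
      push_cast
      ring
    have e1 : (∑ φ : Fin k → Fin n, (k : ℝ) ^ r * (if φ ∈ B1 then (1 : ℝ) else 0)) =
        (k : ℝ) ^ r * B1.card := by
      rw [← mul_sum, ← sum_filter]
      simp
    have e2 : (∑ φ : Fin k → Fin n, (k : ℝ) ^ r * (if φ ∈ B2 then (1 : ℝ) else 0)) =
        (k : ℝ) ^ r * B2.card := by
      rw [← mul_sum, ← sum_filter]
      simp
    rw [sum_add_distrib, sum_add_distrib, e0, e1, e2]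
  have hav : ((k.descFactorial r : ℕ) : ℝ) * ((QR r G).card * (n : ℝ) ^ (k - r)) ≤
      ∑ φ : Fin k → Fin n, ((QR r (pat G φ)).card : ℝ) := by
    have := avg_r r (k := k) G
    exact_mod_cast this
  have hdf := desc_lower r k
  have hQn : ((QR r G).card : ℝ) ≤ (n : ℝ) ^ r := by exact_mod_cast QR_le r G
  obtain ⟨r', hr'⟩ : ∃ r', r = r' + 1 := ⟨r - 1, by omega⟩
  have hr1 : r - 1 = r' := by omega
  rw [hr1] at hdf
  set Z : ℝ := (n : ℝ) ^ (k - r) with hZ
  have hZ0 : 0 < Z := by positivity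
  have z1 : (n : ℝ) ^ k = Z * (n : ℝ) ^ r := by
    rw [hZ, ← pow_add]; congr 1; omega
  have z2 : (n : ℝ) ^ (k - 1) = Z * (n : ℝ) ^ r' := by
    rw [hZ, ← pow_add]; congr 1; omega
  have z3 : (n : ℝ) ^ r = n * (n : ℝ) ^ r' := by rw [hr', pow_succ]; ring
  have z4 : (k : ℝ) ^ r = k * (k : ℝ) ^ r' := by rw [hr', pow_succ]; ring
  rw [z1] at hB1c hsum
  rw [z2] at hB2c
  set U : ℝ := (n : ℝ) ^ r' with hU
  set W : ℝ := (k : ℝ) ^ r' with hW
  have hU0 : 0 < U := by positivity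
  have hW0 : 0 < W := by positivity
  set Q : ℝ := ((QR r G).card : ℝ) with hQ
  have hQ0 : 0 ≤ Q := by positivity
  have t1 : (k : ℝ) ^ r * (Q * Z) ≤
      ρ * (k : ℝ) ^ r * (Z * (n : ℝ) ^ r) + (k : ℝ) ^ r * (η * (Z * (n : ℝ) ^ r)) +
      (k : ℝ) ^ r * ((k : ℝ) ^ 2 * (Z * U)) + (r : ℝ) ^ 2 * W * ((n : ℝ) ^ r * Z) := by
    have a1 : (k : ℝ) ^ r * (Q * Z) ≤
        (((k.descFactorial r : ℕ) : ℝ) + (r : ℝ) ^ 2 * W) * (Q * Z) :=
      mul_le_mul_of_nonneg_right hdf (by positivity)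
    have a2 : (r : ℝ) ^ 2 * W * (Q * Z) ≤ (r : ℝ) ^ 2 * W * ((n : ℝ) ^ r * Z) :=
      mul_le_mul_of_nonneg_left (mul_le_mul_of_nonneg_right hQn hZ0.le) (by positivity)
    have a3 : (k : ℝ) ^ r * B1.card ≤ (k : ℝ) ^ r * (η * (Z * (n : ℝ) ^ r)) :=
      mul_le_mul_of_nonneg_left hB1c (by positivity)
    have a4 : (k : ℝ) ^ r * B2.card ≤ (k : ℝ) ^ r * ((k : ℝ) ^ 2 * (Z * U)) :=
      mul_le_mul_of_nonneg_left hB2c (by positivity)
    have a5 : (((k.descFactorial r : ℕ) : ℝ) + (r : ℝ) ^ 2 * W) * (Q * Z) =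
      ((k.descFactorial r : ℕ) : ℝ) * (Q * Z) + (r : ℝ) ^ 2 * W * (Q * Z) := by ring
    linarith
  have t2 : Q ≤ (ρ + 3 * η) * (n : ℝ) ^ r := by
    have b1 : (k : ℝ) ^ r * ((k : ℝ) ^ 2 * (Z * U)) ≤
        (k : ℝ) ^ r * (η * (Z * (n : ℝ) ^ r)) := by
      refine mul_le_mul_of_nonneg_left ?_ (by positivity)
      calc (k : ℝ) ^ 2 * (Z * U) ≤ (n * η) * (Z * U) :=
            mul_le_mul_of_nonneg_right hnN2.le (by positivity)
        _ = η * (Z * (n : ℝ) ^ r) := by rw [z3]; ring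
    have b2 : (r : ℝ) ^ 2 * W * ((n : ℝ) ^ r * Z) ≤ (k : ℝ) ^ r * (η * (Z * (n : ℝ) ^ r)) := by
      calc (r : ℝ) ^ 2 * W * ((n : ℝ) ^ r * Z) ≤ (k * η) * W * ((n : ℝ) ^ r * Z) := by
            refine mul_le_mul_of_nonneg_right ?_ (by positivity)
            exact mul_le_mul_of_nonneg_right hkη.le (by positivity)
        _ = (k : ℝ) ^ r * (η * (Z * (n : ℝ) ^ r)) := by rw [z4]; ring
    have b3 : (k : ℝ) ^ r * Z * Q ≤ (k : ℝ) ^ r * Z * ((ρ + 3 * η) * (n : ℝ) ^ r) := by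
      have b4 : (k : ℝ) ^ r * Z * ((ρ + 3 * η) * (n : ℝ) ^ r) =
          ρ * (k : ℝ) ^ r * (Z * (n : ℝ) ^ r) + 3 * ((k : ℝ) ^ r * (η * (Z * (n : ℝ) ^ r))) := by
        ring
      have b5 : (k : ℝ) ^ r * Z * Q = (k : ℝ) ^ r * (Q * Z) := by ring
      rw [b4, b5]
      linarith
    exact le_of_mul_le_mul_left b3 (by positivity)
  have hQG : Q = (r.factorial : ℝ) * G.card := by
    rw [hQ]
    exact_mod_cast QR_card r G h3
  have hch : (n : ℝ) ^ r - (r : ℝ) ^ 2 * U ≤ (r.factorial : ℝ) * (n.choose r : ℝ) := by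
    have h6 : (r.factorial : ℝ) * (n.choose r : ℝ) = ((n.descFactorial r : ℕ) : ℝ) := by
      rw [Nat.descFactorial_eq_factorial_mul_choose]
      push_cast
      ring
    have h7 := desc_lower r n
    rw [hr1] at h7
    rw [h6]
    linarith
  have hε8 : ε = 8 * η := by rw [hη]; ring
  rw [hε8]
  have hfac : (0 : ℝ) < r.factorial := by exact_mod_cast Nat.factorial_pos r
  have f1 : (ρ + 3 * η) * (n : ℝ) ^ r ≤ (ρ + 8 * η) * ((n : ℝ) ^ r - (r : ℝ) ^ 2 * U) := by
    have : (r : ℝ) ^ 2 * (ρ + 8 * η) * U ≤ n * (5 * η) * U :=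
      mul_le_mul_of_nonneg_right hnN3.le (by positivity)
    have e1 : (ρ + 8 * η) * ((n : ℝ) ^ r - (r : ℝ) ^ 2 * U) =
      (ρ + 3 * η) * (n : ℝ) ^ r + (n * (5 * η) * U - (r : ℝ) ^ 2 * (ρ + 8 * η) * U) := by
      rw [z3]; ring
    linarith
  have f2 : (ρ + 8 * η) * ((n : ℝ) ^ r - (r : ℝ) ^ 2 * U) ≤
      (ρ + 8 * η) * ((r.factorial : ℝ) * (n.choose r : ℝ)) :=
    mul_le_mul_of_nonneg_left hch (by positivity)
  have f3 : (r.factorial : ℝ) * G.card ≤ (r.factorial : ℝ) * ((ρ + 8 * η) * (n.choose r : ℝ)) := by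
    rw [← hQG]
    calc Q ≤ (ρ + 8 * η) * ((r.factorial : ℝ) * (n.choose r : ℝ)) := t2.trans (f1.trans f2)
      _ = _ := by ring
  exact le_of_mul_le_mul_left f3 hfac

end Pool.Agent.N442.ES
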