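import Mathlib
import Pool.Agent.N442.ES.Cnt
import Pool.Agent.N442.LP.Fin

/-!
# Induced subgraphs of the link graphs of sets of vertices
-/

set_option autoImplicit false

open Finset
open scoped Classical

namespace Pool.Agent.N442.ES

open Pool.Agent.Y47.BU Pool.Agent.N442.LP

/-- the vertices `f a` induce a copy of `F` in the link graph of the set of the vertices `u b` -/
def IsCfg {d : ℕ} {α : Type} {n : ℕ} (F : SimpleGraph α) (G : Finset (Finset (Fin n)))
    (u : Fin d → Fin n) (f : α → Fin n) : Prop :=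
  Function.Injective (Sum.elim u f) ∧ ∀ a b, a ≠ b →
    (F.Adj a b ↔ insert (f a) (insert (f b) (univ.image u)) ∈ G)

/-- the number of induced copies of `F` in link graphs of sequences of `d` vertices -/
noncomputable def cfg (d : ℕ) {α : Type} [Fintype α] (F : SimpleGraph α) {n : ℕ}
    (G : Finset (Finset (Fin n))) : ℕ :=
  ((univ : Finset (Fin d ⊕ α → Fin n)).filter
    fun w => IsCfg F G (fun a => w (Sum.inl a)) (fun a => w (Sum.inr a))).card

/-- the family contains an induced copy -/
def HasCfg (d : ℕ) {α : Type} (F : SimpleGraph α) {k T n : ℕ} (G : Finset (Finset (Fin n)))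
    (y : Fin k → Fin T → Fin n) : Prop :=
  ∃ e : Fin d ⊕ α → Fin k × Fin T, Function.Injective e ∧
    IsCfg F G (fun a => y (e (Sum.inl a)).1 (e (Sum.inl a)).2)
      (fun a => y (e (Sum.inr a)).1 (e (Sum.inr a)).2)

theorem HasCfg.comp {d : ℕ} {α : Type} {F : SimpleGraph α} {k s T n : ℕ}
    {G : Finset (Finset (Fin n))} {y : Fin k → Fin T → Fin n} {z : Fin k → Fin s → Fin T}
    (hz : ∀ i, Function.Injective (z i)) (h : HasCfg d F G (fun i a => y i (z i a))) :
    HasCfg d F G y := by
  obtain ⟨e, he, hc⟩ := h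
  refine ⟨fun x => ((e x).1, z (e x).1 (e x).2), ?_, hc⟩
  intro x x' hx
  apply he
  have hx' : ((e x).1, z (e x).1 (e x).2) = ((e x').1, z (e x').1 (e x').2) := hx
  rw [Prod.mk.injEq] at hx'
  obtain ⟨h1, h2⟩ := hx'
  rw [h1] at h2
  exact Prod.ext h1 (hz _ h2)

/-- few copies, few families with a copy -/
theorem count_cfg (d : ℕ) {α : Type} [Fintype α] (F : SimpleGraph α) (k T n : ℕ)
    (G : Finset (Finset (Fin n))) :
    ((univ : Finset (Fin k → Fin T → Fin n)).filter (HasCfg d F G)).card ≤
      (k * T) ^ (d + Fintype.card α) * (cfg d F G * n ^ (k * T - (d + Fintype.card α))) := by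
  rw [curry_card]
  set E : Finset (Fin d ⊕ α → Fin k × Fin T) := univ.filter Function.Injective with hE
  set t : Finset (Fin d ⊕ α → Fin n) :=
    univ.filter fun w => IsCfg F G (fun a => w (Sum.inl a)) (fun a => w (Sum.inr a)) with ht
  have h1 : (((univ : Finset (Fin k → Fin T → Fin n)).filter (HasCfg d F G)).image
      (fun y => fun p : Fin k × Fin T => y p.1 p.2)) ⊆
      E.biUnion fun e => univ.filter fun w : Fin k × Fin T → Fin n => w ∘ e ∈ t := by
    intro w hw
    obtain ⟨y, hy, rfl⟩ := mem_image.mp hw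
    obtain ⟨e, he, hc⟩ := (mem_filter.mp hy).2
    rw [mem_biUnion]
    refine ⟨e, mem_filter.mpr ⟨mem_univ _, he⟩, mem_filter.mpr ⟨mem_univ _, ?_⟩⟩
    exact mem_filter.mpr ⟨mem_univ _, hc⟩
  refine (card_le_card h1).trans (card_biUnion_le.trans ?_)
  have c1 : Fintype.card (Fin d ⊕ α) = d + Fintype.card α := by
    rw [Fintype.card_sum, Fintype.card_fin]
  have h2 : ∀ e ∈ E, (univ.filter fun w : Fin k × Fin T → Fin n => w ∘ e ∈ t).card ≤
      cfg d F G * n ^ (k * T - (d + Fintype.card α)) := by
    intro e he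
    have h3 := pull_le (V := Fin n) e (mem_filter.mp he).2
      (univ.filter fun w : Fin k × Fin T → Fin n => w ∘ e ∈ t) t
      (fun w hw => (mem_filter.mp hw).2)
    rw [Fintype.card_prod, Fintype.card_fin, Fintype.card_fin, Fintype.card_fin, c1] at h3
    exact h3
  refine (sum_le_sum h2).trans ?_
  rw [sum_const, smul_eq_mul]
  refine Nat.mul_le_mul_right _ ?_
  have h4 : E.card ≤ (univ : Finset (Fin d ⊕ α → Fin k × Fin T)).card :=
    card_le_card (filter_subset _ _)
  refine h4.trans (le_of_eq ?_)
  rw [card_univ, Fintype.card_fun, Fintype.card_prod, Fintype.card_fin, Fintype.card_fin, c1]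

/-- the density of the copies of `F` -/
noncomputable def qc (d : ℕ) {α : Type} [Fintype α] (F : SimpleGraph α) (n : ℕ)
    (G : Finset (Finset (Fin n))) : ℝ := (cfg d F G : ℝ) / (n : ℝ) ^ (d + Fintype.card α)

theorem qc_nonneg (d : ℕ) {α : Type} [Fintype α] (F : SimpleGraph α) (n : ℕ)
    (G : Finset (Finset (Fin n))) : 0 ≤ qc d F n G := by
  unfold qc; positivity

theorem hqc (d : ℕ) {α : Type} [Fintype α] (F : SimpleGraph α) (k T : ℕ) :
    ∃ C : ℝ, 0 ≤ C ∧ ∀ n : ℕ, 0 < n → ∀ G : Finset (Finset (Fin n)),
      (((univ : Finset (Fin k → Fin T → Fin n)).filter (HasCfg d F G)).card : ℝ) ≤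
        C * qc d F n G * (n : ℝ) ^ (k * T) := by
  refine ⟨((k * T : ℕ) : ℝ) ^ (d + Fintype.card α), by positivity, fun n hn G => ?_⟩
  have hn' : (0 : ℝ) < n := by exact_mod_cast hn
  unfold qc
  rcases Nat.lt_or_ge (k * T) (d + Fintype.card α) with h | h
  · have h0 : ((univ : Finset (Fin k → Fin T → Fin n)).filter (HasCfg d F G)) = ∅ := by
      ext y
      simp only [mem_filter, mem_univ, true_and, notMem_empty, iff_false]
      rintro ⟨e, he, -⟩
      have := Fintype.card_le_of_injective e he
      rw [Fintype.card_sum, Fintype.card_fin, Fintype.card_prod, Fintype.card_fin,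
        Fintype.card_fin] at this
      omega
    rw [h0, card_empty, Nat.cast_zero]
    positivity
  · have h1 := (Nat.cast_le (α := ℝ)).2 (count_cfg d F k T n G)
    rw [Nat.cast_mul, Nat.cast_mul, Nat.cast_pow, Nat.cast_pow] at h1
    refine h1.trans (le_of_eq ?_)
    have h2 : (n : ℝ) ^ (k * T) = (n : ℝ) ^ (k * T - (d + Fintype.card α)) *
        (n : ℝ) ^ (d + Fintype.card α) := by
      rw [← pow_add]; congr 1; omega
    rw [h2]
    field_simp

/-- membership of sets of points of a blow-up is governed by `P` -/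
def RealM {k s n : ℕ} (r : ℕ) (G : Finset (Finset (Fin n))) (P : Multiset (Fin k) → Prop)
    (Y : Fin k → Fin s → Fin n) : Prop :=
  ∀ E : Finset (Fin k × Fin s), E.card = r →
    (E.image (fun p => Y p.1 p.2) ∈ G ↔ P (E.val.map Prod.fst))

/-- a multiset as the family of values of a function -/
theorem exists_fun {K : Type} {d : ℕ} {β : Multiset K} (h : β.card = d) :
    ∃ g : Fin d → K, (univ : Finset (Fin d)).val.map g = β := by
  induction β using Quotient.inductionOn with
  | h l =>
    have hl : l.length = d := by simpa using h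
    subst hl
    refine ⟨l.get, ?_⟩
    rw [Fin.univ_val_map, List.ofFn_get]
    rfl

theorem cfg_of {d k s t n : ℕ} (hs : d + t ≤ s) {G : Finset (Finset (Fin n))}
    {P : Multiset (Fin k) → Prop} {Y : Fin k → Fin s → Fin n}
    (hY : Function.Injective fun p : Fin k × Fin s => Y p.1 p.2) (hR : RealM (d + 2) G P Y)
    {β : Multiset (Fin k)} (hβ : β.card = d) {i j : Fin k} (hij : i ≠ j)
    (F : SimpleGraph (Fin t ⊕ Fin t))
    (hF : ∀ a b : Fin t ⊕ Fin t, a ≠ b → (F.Adj a b ↔
      P ((Sum.elim (fun _ => i) (fun _ => j) a : Fin k) ::ₘ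
        (Sum.elim (fun _ => i) (fun _ => j) b : Fin k) ::ₘ β))) : HasCfg d F G Y := by
  obtain ⟨g, hg⟩ := exists_fun hβ
  set pt : Fin t ⊕ Fin t → Fin k := Sum.elim (fun _ => i) (fun _ => j) with hpt
  set ix : Fin t ⊕ Fin t → Fin s := Sum.elim (fun b => ⟨d + b, by omega⟩)
    (fun b => ⟨d + b, by omega⟩) with hix
  set e : Fin d ⊕ (Fin t ⊕ Fin t) → Fin k × Fin s :=
    Sum.elim (fun a => (g a, ⟨a, by omega⟩)) (fun a => (pt a, ix a)) with he
  have hixd : ∀ a, d ≤ (ix a : ℕ) := by
    rintro (a | a)
    · simp [hix]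
    · simp [hix]
  have hein : Function.Injective e := by
    rintro (a | a) (b | b) hab
    · have h1 := congrArg Prod.snd hab
      simp only [he, Sum.elim_inl, Fin.mk.injEq] at h1
      rw [Fin.ext h1]
    · exfalso
      have h1 := congrArg (fun x => (x.2 : ℕ)) hab
      simp only [he, Sum.elim_inl, Sum.elim_inr] at h1
      have := hixd b
      omega
    · exfalso
      have h1 := congrArg (fun x => (x.2 : ℕ)) hab
      simp only [he, Sum.elim_inl, Sum.elim_inr] at h1
      have := hixd a
      omega
    · congr 1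
      have h1 := congrArg Prod.fst hab
      have h2 := congrArg (fun x => (x.2 : ℕ)) hab
      simp only [he, Sum.elim_inr] at h1 h2
      rcases a with a | a <;> rcases b with b | b
      · simp only [hix, Sum.elim_inl] at h2
        congr 1
        exact Fin.ext (by omega)
      · exact absurd h1 hij
      · exact absurd h1.symm hij
      · simp only [hix, Sum.elim_inr] at h2
        congr 1
        exact Fin.ext (by omega)
  refine ⟨e, hein, ?_, ?_⟩
  · have h1 : (Sum.elim (fun a => Y (e (Sum.inl a)).1 (e (Sum.inl a)).2)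
        (fun a => Y (e (Sum.inr a)).1 (e (Sum.inr a)).2) : Fin d ⊕ (Fin t ⊕ Fin t) → Fin n) =
        (fun p : Fin k × Fin s => Y p.1 p.2) ∘ e := by
      funext x
      rcases x with x | x <;> rfl
    rw [h1]
    exact hY.comp hein
  · intro a b hab
    rw [hF a b hab]
    set E : Finset (Fin k × Fin s) := insert (e (Sum.inr a)) (insert (e (Sum.inr b))
      (univ.image fun c => e (Sum.inl c))) with hE
    have n1 : e (Sum.inr b) ∉ univ.image fun c => e (Sum.inl c) := by
      intro h
      obtain ⟨c, -, hc⟩ := mem_image.mp h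
      exact absurd (hein hc) (by simp)
    have n2 : e (Sum.inr a) ∉ insert (e (Sum.inr b)) (univ.image fun c => e (Sum.inl c)) := by
      intro h
      rcases mem_insert.mp h with h | h
      · exact hab (Sum.inr_injective (hein h))
      · obtain ⟨c, -, hc⟩ := mem_image.mp h
        exact absurd (hein hc) (by simp)
    have hinl : Function.Injective fun c : Fin d => e (Sum.inl c) := fun c c' h =>
      Sum.inl_injective (hein h)
    have hEc : E.card = d + 2 := by
      rw [hE, card_insert_of_notMem n2, card_insert_of_notMem n1,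
        card_image_of_injective _ hinl, card_univ, Fintype.card_fin]
    have h1 := hR E hEc
    have h2 : E.val.map Prod.fst = pt a ::ₘ pt b ::ₘ β := by
      rw [hE, insert_val_of_notMem n2, Multiset.map_cons, insert_val_of_notMem n1,
        Multiset.map_cons, image_val_of_injOn (hinl.injOn), Multiset.map_map]
      rw [← hg]
      rfl
    rw [h2] at h1
    rw [← h1, hE, image_insert, image_insert, image_image]
    rfl

end Pool.Agent.N442.ES
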