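import Mathlib
import Pool.Agent.H507R3.RamAll

/-!
# Homogeneous blow-ups in `r`-graphs
-/

set_option autoImplicit false

open Finset
open scoped Classical

namespace Pool.Agent.N442.ES

/-- Ramsey's theorem for the `r`-subsets of `Fin N` -/
theorem ramF (κ : Type) [Fintype κ] [Nonempty κ] (r L : ℕ) : ∃ N : ℕ, ∀ col : Finset (Fin N) → κ,
    ∃ (τ : Fin L ↪o Fin N) (c : κ), ∀ B : Finset (Fin L), B.card = r →
      col (B.map τ.toEmbedding) = c := by
  obtain ⟨N, hN⟩ := Pool.Agent.H507R3.RamAll.ramsey_finset κ r L
  refine ⟨N, fun col => ?_⟩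
  obtain ⟨T, hTS, hT, c, hc⟩ := hN (range N)
    (fun Q => col (univ.filter fun j : Fin N => (j : ℕ) ∈ Q)) (by rw [card_range])
  set e := T.orderEmbOfFin hT with he
  have heT : ∀ a, e a ∈ T := fun a => T.orderEmbOfFin_mem hT a
  refine ⟨OrderEmbedding.ofStrictMono (fun a => (⟨e a, mem_range.mp (hTS (heT a))⟩ : Fin N))
    (fun a b hab => by
      rw [Fin.lt_def]
      exact e.strictMono hab), c, fun B hB => ?_⟩
  have h1 := hc (B.image e) (by
    intro x hx
    obtain ⟨a, -, rfl⟩ := mem_image.mp hx
    exact heT a) (by rw [card_image_of_injective _ e.injective, hB])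
  rw [← h1]
  congr 1
  ext j
  simp only [mem_map, mem_filter, mem_univ, true_and, mem_image]
  constructor
  · rintro ⟨a, ha, rfl⟩
    exact ⟨a, ha, rfl⟩
  · rintro ⟨a, ha, h⟩
    exact ⟨a, ha, Fin.ext h⟩

/-- monotone functions are determined by their multiset of values -/
theorem mono_unique {r k : ℕ} {h h' : Fin r → Fin k} (hm : Monotone h) (hm' : Monotone h')
    (he : (univ : Finset (Fin r)).val.map h = (univ : Finset (Fin r)).val.map h') : h = h' := by
  have h1 : (List.ofFn h : Multiset (Fin k)) = (List.ofFn h' : Multiset (Fin k)) := by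
    have e : ∀ g : Fin r → Fin k, (univ : Finset (Fin r)).val.map g = (List.ofFn g : Multiset (Fin k)) := by
      intro g
      rw [Fin.univ_val_map]
    rw [← e h, ← e h', he]
  have h2 : (List.ofFn h).Perm (List.ofFn h') := Multiset.coe_eq_coe.mp h1
  have h3 : List.ofFn h = List.ofFn h' :=
    h2.eq_of_pairwise' (List.pairwise_ofFn.mpr fun i j hij => hm hij.le)
      (List.pairwise_ofFn.mpr fun i j hij => hm' hij.le)
  exact List.ofFn_injective h3

/-- **Homogeneous blow-ups.** -/
theorem hom (r k s : ℕ) : ∃ T : ℕ, ∀ (α : Type) [DecidableEq α] (G : Finset (Finset α))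
    (y : Fin k → Fin T → α), ∃ (z : Fin k → Fin s → Fin T) (P : Multiset (Fin k) → Prop),
    (∀ i, Function.Injective (z i)) ∧ ∀ E : Finset (Fin k × Fin s), E.card = r →
      (E.image (fun p => y p.1 (z p.1 p.2)) ∈ G ↔ P (E.val.map Prod.fst)) := by
  obtain ⟨T, hT⟩ := ramF ((Fin r → Fin k) → Bool) r (k * s)
  refine ⟨T, fun α _ G y => ?_⟩
  obtain ⟨τ, c, hc⟩ := hT (fun Q h => if hQ : Q.card = r then
    decide (univ.image (fun b : Fin r => y (h b) (Q.orderEmbOfFin hQ b)) ∈ G) else true)
  refine ⟨fun i a => τ (finProdFinEquiv (i, a)), fun M => ∃ h : Fin r → Fin k, Monotone h ∧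
    (univ : Finset (Fin r)).val.map h = M ∧ c h = true, ?_, ?_⟩
  · intro i a b hab
    have h1 := finProdFinEquiv.injective (τ.injective hab)
    exact congrArg Prod.snd h1
  · intro E hE
    set B : Finset (Fin (k * s)) := E.map finProdFinEquiv.toEmbedding with hB
    have hBc : B.card = r := by rw [hB, card_map, hE]
    set e := B.orderEmbOfFin hBc with he
    have heB : ∀ b, e b ∈ B := fun b => B.orderEmbOfFin_mem hBc b
    have hBe : B = univ.image e := by
      rw [he]
      exact (image_orderEmbOfFin_univ B hBc).symm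
    set h : Fin r → Fin k := fun b => (finProdFinEquiv.symm (e b)).1 with hh
    have hmono : Monotone h := by
      intro a b hab
      rw [Fin.le_def]
      have h1 : (e a : ℕ) ≤ e b := e.monotone hab
      change ((e a).divNat : ℕ) ≤ (e b).divNat
      rw [Fin.coe_divNat, Fin.coe_divNat]
      exact Nat.div_le_div_right h1
    have hE' : E = univ.image (fun b => finProdFinEquiv.symm (e b)) := by
      ext p
      rw [mem_image]
      constructor
      · intro hp
        have h1 : finProdFinEquiv p ∈ B := mem_map_of_mem _ hp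
        rw [hBe, mem_image] at h1
        obtain ⟨b, -, hb⟩ := h1
        exact ⟨b, mem_univ _, by rw [hb, Equiv.symm_apply_apply]⟩
      · rintro ⟨b, -, rfl⟩
        have h1 := heB b
        rw [hB, mem_map_equiv] at h1
        exact h1
    have hval : (univ : Finset (Fin r)).val.map h = E.val.map Prod.fst := by
      conv_rhs => rw [hE']
      rw [image_val_of_injOn, Multiset.map_map]
      · rfl
      · intro a _ b _ hab
        exact e.injective (finProdFinEquiv.symm.injective hab)
    have hcol := congrFun (hc B hBc) h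
    have hmc : (B.map τ.toEmbedding).card = r := by rw [card_map, hBc]
    simp only [dif_pos hmc] at hcol
    have huniq : (fun b => τ (e b)) = (B.map τ.toEmbedding).orderEmbOfFin hmc :=
      orderEmbOfFin_unique hmc (fun b => mem_map_of_mem _ (heB b))
        (fun a b hab => τ.strictMono (e.strictMono hab))
    rw [← huniq] at hcol
    have himg : univ.image (fun b : Fin r => y (h b) (τ (e b))) =
        E.image (fun p => y p.1 (τ (finProdFinEquiv (p.1, p.2)))) := by
      conv_rhs => rw [hE']
      rw [image_image]
      refine image_congr fun b _ => ?_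
      simp only [Function.comp_apply, Prod.mk.eta, Equiv.apply_symm_apply]
      rfl
    rw [himg] at hcol
    rw [← hval]
    constructor
    · intro hG
      refine ⟨h, hmono, rfl, ?_⟩
      rw [← hcol]
      exact decide_eq_true hG
    · rintro ⟨h', hm', he', hc'⟩
      have : h' = h := mono_unique hm' hmono he'
      rw [this, ← hcol] at hc'
      exact of_decide_eq_true hc'

end Pool.Agent.N442.ES
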