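import Mathlib

/-!
# Symmetric patterns with two exchange rules

`P` is a set of multisets with `r` elements. If `P` contains no constant multiset and satisfies the
rules `d1` and `d2`, then the multisets in `P` are those not contained in a class of an equivalence
relation.
-/

set_option autoImplicit false

open Multiset

namespace Pool.Agent.N442.ES

variable {K : Type}

/-- the two exchange rules -/
structure Tame (r : ℕ) (P : Multiset K → Prop) : Prop where
  base : ∀ i, ¬ P (replicate r i)
  d1 : ∀ (γ : Multiset K) (i l : K), γ.card + 2 = r → P (i ::ₘ i ::ₘ γ) → P (i ::ₘ l ::ₘ γ)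
  d2 : ∀ (γ : Multiset K) (i l : K), γ.card + 2 = r → P (i ::ₘ l ::ₘ γ) →
    P (i ::ₘ i ::ₘ γ) ∨ P (l ::ₘ l ::ₘ γ)

variable {r : ℕ} {P : Multiset K → Prop}

/-- copies of `i` may be replaced as long as one is left -/
theorem Tame.rep (h : Tame r P) (i : K) (B : Multiset K) : ∀ A : Multiset K,
    B.card + A.card + 1 = r → P (i ::ₘ (replicate B.card i + A)) → P (i ::ₘ (B + A)) := by
  induction B using Multiset.induction with
  | empty => intro A _ hP; simpa using hP
  | cons b B ih =>
    intro A hc hP
    rw [card_cons] at hc hP
    rw [replicate_succ, cons_add] at hP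
    have h1 := h.d1 (replicate B.card i + A) i b (by rw [card_add, card_replicate]; omega) hP
    have h2 : P (i ::ₘ (replicate B.card i + (b ::ₘ A))) := by
      rw [add_cons]; exact h1
    have h3 := ih (b ::ₘ A) (by rw [card_cons]; omega) h2
    rw [cons_add, ← add_cons]
    exact h3

/-- no multiset on `{i, l}` is in `P` -/
def Rel (r : ℕ) (P : Multiset K → Prop) (i l : K) : Prop :=
  ∀ M : Multiset K, M.card = r → (∀ x ∈ M, x = i ∨ x = l) → ¬ P M

theorem Rel.symm {i l : K} (h : Rel r P i l) : Rel r P l i :=
  fun M hM hx => h M hM fun x hxM => (hx x hxM).symm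

theorem Tame.rel_refl (h : Tame r P) (i : K) : Rel r P i i := by
  intro M hM hx hP
  have : M = replicate r i := by
    rw [eq_replicate]
    exact ⟨hM, fun b hb => (hx b hb).elim id id⟩
  rw [this] at hP
  exact h.base i hP

variable [DecidableEq K]

/-- splitting off the copies of `i` -/
theorem split_off (i : K) (M : Multiset K) :
    M = replicate (M.count i) i + M.filter (fun x => x ≠ i) := by
  have h1 : M.filter (fun x => x = i) = replicate (M.count i) i := by
    rw [filter_eq']
  rw [← h1, filter_add_not]

/-- two unrelated elements force membership -/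
theorem Tame.mem_of_not_rel (h : Tame r P) {i j : K} (hij : ¬ Rel r P i j) {N : Multiset K}
    (hN : N.card + 2 = r) : P (i ::ₘ j ::ₘ N) := by
  unfold Rel at hij
  push Not at hij
  obtain ⟨M, hM, hx, hP⟩ := hij
  -- both elements occur
  have hne : i ≠ j := by
    rintro rfl
    exact h.rel_refl i M hM hx hP
  have hi : i ∈ M := by
    by_contra hi
    refine h.rel_refl j M hM (fun x hxM => ?_) hP
    rcases hx x hxM with e | e
    · exact absurd (e ▸ hxM) hi
    · exact Or.inl e
  have hj : j ∈ M := by
    by_contra hj
    refine h.rel_refl i M hM (fun x hxM => ?_) hP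
    rcases hx x hxM with e | e
    · exact Or.inl e
    · exact absurd (e ▸ hxM) hj
  -- `M = i^a j^b`, replace all but one `j` by `i`
  obtain ⟨a, ha⟩ : ∃ a, M.count i = a + 1 := ⟨M.count i - 1, by
    have := count_pos.mpr hi; omega⟩
  obtain ⟨b, hb⟩ : ∃ b, M.count j = b + 1 := ⟨M.count j - 1, by
    have := count_pos.mpr hj; omega⟩
  have hM1 : M = replicate (a + 1) i + replicate (b + 1) j := by
    have h1 := split_off i M
    have h2 : M.filter (fun x => x ≠ i) = replicate (b + 1) j := by
      rw [eq_replicate]
      constructor
      · have h3 : M.filter (fun x => x ≠ i) = M.filter (fun x => x = j) := by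
          refine filter_congr fun x hxM => ?_
          rcases hx x hxM with e | e
          · subst e
            exact ⟨fun h => absurd rfl h, fun h => absurd h hne⟩
          · subst e
            exact ⟨fun _ => rfl, fun _ => hne.symm⟩
        rw [h3, filter_eq', card_replicate, hb]
      · intro x hxf
        rw [mem_filter] at hxf
        exact (hx x hxf.1).resolve_left hxf.2
    rw [h1, h2, ha]
  have hab : a + b + 2 = r := by
    rw [← hM, hM1, card_add, card_replicate, card_replicate]; omega
  have e1 : M = j ::ₘ (replicate (replicate b i).card j + replicate (a + 1) i) := by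
    rw [hM1, card_replicate, replicate_succ j b, add_cons, add_comm]
  rw [e1] at hP
  have h3 := h.rep j (replicate b i) (replicate (a + 1) i)
    (by rw [card_replicate, card_replicate]; omega) hP
  have e2 : j ::ₘ (replicate b i + replicate (a + 1) i) =
      i ::ₘ (replicate N.card i + {j}) := by
    have : N.card = b + a := by omega
    rw [this, ← replicate_add, show b + (a + 1) = (b + a) + 1 by omega, replicate_succ,
      add_comm _ ({j} : Multiset K), singleton_add, cons_swap]
  rw [e2] at h3
  have h4 := h.rep i N {j} (by rw [card_singleton]; omega) h3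
  rw [add_comm, singleton_add] at h4
  exact h4

theorem Tame.rel_trans (h : Tame r P) (hr : 2 ≤ r) {i j l : K} (h1 : Rel r P i j)
    (h2 : Rel r P j l) : Rel r P i l := by
  by_contra h3
  have h4 := h.mem_of_not_rel h3 (N := replicate (r - 2) j) (by rw [card_replicate]; omega)
  rcases h.d2 _ _ _ (by rw [card_replicate]; omega) h4 with h5 | h5
  · refine h1 _ (by rw [card_cons, card_cons, card_replicate]; omega) ?_ h5
    intro x hx
    rw [mem_cons, mem_cons] at hx
    rcases hx with e | e | e
    · exact Or.inl e
    · exact Or.inl e
    · exact Or.inr (eq_of_mem_replicate e)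
  · refine h2 _ (by rw [card_cons, card_cons, card_replicate]; omega) ?_ h5
    intro x hx
    rw [mem_cons, mem_cons] at hx
    rcases hx with e | e | e
    · exact Or.inr e
    · exact Or.inr e
    · exact Or.inl (eq_of_mem_replicate e)

/-- multisets inside a class are not in `P` -/
theorem Tame.not_mem_class (h : Tame r P) (hr : 2 ≤ r) : ∀ (s : ℕ) (M : Multiset K),
    M.toFinset.card ≤ s → M.card = r → (∀ x ∈ M, ∀ y ∈ M, Rel r P x y) → ¬ P M := by
  intro s
  induction s with
  | zero =>
    intro M hs hM _ _
    have : M.toFinset = ∅ := Finset.card_eq_zero.mp (by omega)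
    rw [toFinset_eq_empty] at this
    rw [this, card_zero] at hM
    omega
  | succ s ih =>
    intro M hs hM hR hP
    have hM0 : ∃ i, i ∈ M := by
      have : 0 < M.card := by omega
      exact card_pos_iff_exists_mem.mp this
    obtain ⟨i, hi⟩ := hM0
    by_cases c1 : ∃ l ∈ M, l ≠ i
    · obtain ⟨l, hl, hli⟩ := c1
      by_cases c2 : ∃ h' ∈ M, h' ≠ i ∧ h' ≠ l
      · obtain ⟨g, hg, hgi, hgl⟩ := c2
        obtain ⟨a, ha⟩ : ∃ a, M.count i = a + 1 := ⟨M.count i - 1, by
          have := count_pos.mpr hi; omega⟩
        set A := M.filter (fun x => x ≠ i) with hA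
        have hlA : l ∈ A := by rw [hA, mem_filter]; exact ⟨hl, hli⟩
        obtain ⟨b, hb⟩ : ∃ b, A.count l = b + 1 := ⟨A.count l - 1, by
          have := count_pos.mpr hlA; omega⟩
        set A' := A.filter (fun x => x ≠ l) with hA'
        have e1 : M = replicate (a + 1) i + A := by rw [← ha]; exact split_off i M
        have e2 : A = replicate (b + 1) l + A' := by rw [← hb]; exact split_off l A
        have hc : a + b + 2 + A'.card = r := by
          rw [← hM, e1, e2, card_add, card_add, card_replicate, card_replicate]; omega
        have hP1 : P (i ::ₘ (replicate (replicate a g).card i + A)) := by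
          rw [card_replicate, ← cons_add, ← replicate_succ, ← e1]; exact hP
        have hP2 := h.rep i (replicate a g) A
          (by rw [card_replicate, e2, card_add, card_replicate]; omega) hP1
        have e3 : i ::ₘ (replicate a g + A) =
            l ::ₘ (replicate (replicate b g).card l + (i ::ₘ (replicate a g + A'))) := by
          rw [card_replicate, e2, replicate_succ l b]
          simp only [← singleton_add]
          abel
        rw [e3] at hP2
        have hP3 := h.rep l (replicate b g) (i ::ₘ (replicate a g + A'))
          (by rw [card_replicate, card_cons, card_add, card_replicate]; omega) hP2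
        have e4 : l ::ₘ (replicate b g + (i ::ₘ (replicate a g + A'))) =
            i ::ₘ l ::ₘ (replicate b g + (replicate a g + A')) := by
          rw [add_cons, cons_swap]
        rw [e4] at hP3
        set N := replicate b g + (replicate a g + A') with hN
        have hNc : N.card + 2 = r := by
          rw [hN, card_add, card_add, card_replicate, card_replicate]; omega
        have hNm : ∀ x ∈ N, x ∈ M ∧ x ≠ i ∧ x ≠ l := by
          intro x hx
          rw [hN, mem_add, mem_add] at hx
          rcases hx with e | e | e
          · rw [eq_of_mem_replicate e]; exact ⟨hg, hgi, hgl⟩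
          · rw [eq_of_mem_replicate e]; exact ⟨hg, hgi, hgl⟩
          · rw [hA', mem_filter, hA, mem_filter] at e
            exact ⟨e.1.1, e.1.2, e.2⟩
        have fin : ∀ u v : K, u ∈ M → v ∈ M → u ≠ v → (∀ x ∈ N, x ≠ v) → ¬ P (u ::ₘ u ::ₘ N) := by
          intro u v hu hv huv hNv hPu
          have hsub : ∀ x ∈ u ::ₘ u ::ₘ N, x ∈ M := by
            intro x hx
            rw [mem_cons, mem_cons] at hx
            rcases hx with e | e | e
            · rw [e]; exact hu
            · rw [e]; exact hu
            · exact (hNm x e).1
          refine ih _ ?_ (by rw [card_cons, card_cons]; omega)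
            (fun x hx y hy => hR x (hsub x hx) y (hsub y hy)) hPu
          have h1 : (u ::ₘ u ::ₘ N).toFinset ⊆ M.toFinset.erase v := by
            intro x hx
            rw [mem_toFinset] at hx
            rw [Finset.mem_erase, mem_toFinset]
            refine ⟨?_, hsub x hx⟩
            rw [mem_cons, mem_cons] at hx
            rcases hx with e | e | e
            · rw [e]; exact huv
            · rw [e]; exact huv
            · exact hNv x e
          have h2 := Finset.card_le_card h1
          rw [Finset.card_erase_of_mem (mem_toFinset.mpr hv)] at h2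
          omega
        rcases h.d2 _ _ _ hNc hP3 with h5 | h5
        · exact fin i l hi hl hli.symm (fun x hx => (hNm x hx).2.2) h5
        · exact fin l i hl hi hli (fun x hx => (hNm x hx).2.1) h5
      · push Not at c2
        refine hR i hi l hl M hM (fun x hx => ?_) hP
        by_cases e : x = i
        · exact Or.inl e
        · exact Or.inr (c2 x hx e)
    · push Not at c1
      exact hR i hi i hi M hM (fun x hx => Or.inl (c1 x hx)) hP

/-- **The structure of tame patterns.** -/
theorem Tame.mem_iff (h : Tame r P) (hr : 2 ≤ r) {M : Multiset K} (hM : M.card = r) :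
    P M ↔ ∃ x ∈ M, ∃ y ∈ M, ¬ Rel r P x y := by
  constructor
  · intro hP
    by_contra hno
    push Not at hno
    exact h.not_mem_class hr _ M le_rfl hM hno hP
  · rintro ⟨x, hx, y, hy, hxy⟩
    have hne : x ≠ y := by
      rintro rfl
      exact hxy (h.rel_refl x)
    have e1 : M = x ::ₘ y ::ₘ (M.erase x).erase y := by
      rw [cons_erase ((mem_erase_of_ne hne.symm).mpr hy), cons_erase hx]
    rw [e1]
    refine h.mem_of_not_rel hxy ?_
    have := congrArg card e1
    rw [card_cons, card_cons] at this
    omega

end Pool.Agent.N442.ES
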