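import Mathlib
import Pool.Agent.N442.ES.Cfg
import Pool.Agent.N442.ES.Hom
import Pool.Agent.N442.ES.Pat

/-!
# The local theorem: dense blow-ups contain one of three configurations
-/

set_option autoImplicit false

open Finset
open scoped Classical

namespace Pool.Agent.N442.ES

open Pool.Agent.Y47.BU Pool.Agent.N442.LP

/-- `G` has no copy of `F` -/
def Free {f n : ℕ} (F : Finset (Finset (Fin f))) (G : Finset (Finset (Fin n))) : Prop :=
  ∀ g : Fin f → Fin n, Function.Injective g → ∃ e ∈ F, e.image g ∉ G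

/-- `F` has a colouring with `p` colours without monochromatic edges -/
def Col (p : ℕ) {f : ℕ} (F : Finset (Finset (Fin f))) : Prop :=
  ∃ c : Fin f → Fin p, ∀ e ∈ F, ∃ x ∈ e, ∃ y ∈ e, c x ≠ c y

/-- the three graphs -/
def gBip (t : ℕ) : SimpleGraph (Fin t ⊕ Fin t) := completeBipartiteGraph (Fin t) (Fin t)

/-- two disjoint cliques -/
def gCC (t : ℕ) : SimpleGraph (Fin t ⊕ Fin t) := (⊤ : SimpleGraph (Fin t)) ⊕g (⊤ : SimpleGraph (Fin t))

/-- a clique and isolated vertices -/
def gCI (t : ℕ) : SimpleGraph (Fin t ⊕ Fin t) := (⊤ : SimpleGraph (Fin t)) ⊕g (⊥ : SimpleGraph (Fin t))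

theorem power_bound {k p d : ℕ} (cl : Fin k → Fin p) :
    (k : ℝ) ^ (d + 1) / (p : ℝ) ^ d ≤
      (((univ : Finset (Fin (d + 1) → Fin k)).filter fun f => ∀ a b, cl (f a) = cl (f b)).card : ℝ) := by
  have h1 : ∑ c : Fin p, ((univ.filter fun i => cl i = c).card : ℝ) ^ (d + 1) ≤
      (((univ : Finset (Fin (d + 1) → Fin k)).filter
        fun f => ∀ a b, cl (f a) = cl (f b)).card : ℝ) := by
    have e1 : ∀ c : Fin p, ((univ.filter fun i => cl i = c).card : ℝ) ^ (d + 1) =
        (((univ : Finset (Fin (d + 1) → Fin k)).filter fun f => ∀ a, cl (f a) = c).card : ℝ) := by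
      intro c
      have : ((univ : Finset (Fin (d + 1) → Fin k)).filter fun f => ∀ a, cl (f a) = c) =
          Fintype.piFinset fun _ : Fin (d + 1) => univ.filter fun i => cl i = c := by
        ext f
        simp [Fintype.mem_piFinset]
      rw [this, Fintype.card_piFinset, prod_const, card_univ, Fintype.card_fin]
      push_cast
      rfl
    rw [sum_congr rfl fun c _ => e1 c]
    rw [← Nat.cast_sum, ← card_biUnion]
    · refine Nat.cast_le.mpr (card_le_card ?_)
      intro f hf
      obtain ⟨c, -, hc⟩ := mem_biUnion.mp hf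
      have := (mem_filter.mp hc).2
      exact mem_filter.mpr ⟨mem_univ _, fun a b => (this a).trans (this b).symm⟩
    · intro c _ c' _ hcc
      rw [Function.onFun, disjoint_left]
      intro f hf hf'
      exact hcc (((mem_filter.mp hf).2 0).symm.trans ((mem_filter.mp hf').2 0))
  refine le_trans ?_ h1
  have h2 := pow_sum_div_card_le_sum_pow (s := (univ : Finset (Fin p)))
    (f := fun c => ((univ.filter fun i => cl i = c).card : ℝ)) (fun _ _ => by positivity) d
  refine le_trans (le_of_eq ?_) h2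
  have h3 : ∑ c : Fin p, ((univ.filter fun i => cl i = c).card : ℝ) = k := by
    rw [← Nat.cast_sum]
    have := card_eq_sum_card_fiberwise (s := (univ : Finset (Fin k))) (t := (univ : Finset (Fin p)))
      (f := cl) (fun _ _ => mem_coe.mpr (mem_univ _))
    rw [card_univ, Fintype.card_fin] at this
    rw [← this]
  rw [h3, card_univ, Fintype.card_fin]

/-- an equivalence relation without `p + 1` pairwise inequivalent elements has at most `p` classes -/
theorem exists_cl {k p : ℕ} (R : Fin k → Fin k → Prop) (h1 : ∀ i, R i i)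
    (h2 : ∀ i j, R i j → R j i) (h3 : ∀ i j l, R i j → R j l → R i l)
    (h : ¬ ∃ ι : Fin (p + 1) → Fin k, ∀ a b, a ≠ b → ¬ R (ι a) (ι b)) :
    ∃ cl : Fin k → Fin p, ∀ i j, cl i = cl j → R i j := by
  set S : Setoid (Fin k) := ⟨R, h1, fun {i j} => h2 i j, fun {i j l} => h3 i j l⟩ with hS
  have hcard : Fintype.card (Quotient S) ≤ p := by
    by_contra hc
    have hc' : Fintype.card (Fin (p + 1)) ≤ Fintype.card (Quotient S) := by
      rw [Fintype.card_fin]; omega
    obtain ⟨g⟩ := Function.Embedding.nonempty_of_card_le hc'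
    refine h ⟨fun a => (g a).out, fun a b hab hR => hab ?_⟩
    have h4 : (⟦(g a).out⟧ : Quotient S) = ⟦(g b).out⟧ := Quotient.sound hR
    rw [Quotient.out_eq, Quotient.out_eq] at h4
    exact g.injective h4
  have hc' : Fintype.card (Quotient S) ≤ Fintype.card (Fin p) := by
    rw [Fintype.card_fin]; exact hcard
  obtain ⟨g⟩ := Function.Embedding.nonempty_of_card_le hc'
  refine ⟨fun i => g ⟦i⟧, fun i j hij => ?_⟩
  exact Quotient.exact (g.injective hij)

/-- one of the copies -/
def BB (d : ℕ) {α : Type} (F : SimpleGraph α) (k T n : ℕ) (G : Finset (Finset (Fin n)))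
    (y : Fin k → Fin T → Fin n) : Prop := HasCfg d F G y

/-- one of two copies -/
def B2 (d t k T n : ℕ) (G : Finset (Finset (Fin n))) (y : Fin k → Fin T → Fin n) : Prop :=
  HasCfg d (gCC t) G y ∨ HasCfg d (gCI t) G y

/-- one of three copies -/
def B3 (d t k T n : ℕ) (G : Finset (Finset (Fin n))) (y : Fin k → Fin T → Fin n) : Prop :=
  HasCfg d (gBip t) G y ∨ B2 d t k T n G y

/-- the two rules without the condition on constant multisets -/
def Rules (d : ℕ) {K : Type} (P : Multiset K → Prop) : Prop :=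
  (∀ (γ : Multiset K) (i l : K), γ.card = d → P (i ::ₘ i ::ₘ γ) → P (i ::ₘ l ::ₘ γ)) ∧
  (∀ (γ : Multiset K) (i l : K), γ.card = d → P (i ::ₘ l ::ₘ γ) →
    P (i ::ₘ i ::ₘ γ) ∨ P (l ::ₘ l ::ₘ γ))

/-- **Homogeneous blow-ups without the three configurations satisfy the rules.** -/
theorem setup (d t f k : ℕ) (hk : 0 < k) : ∃ T : ℕ, 0 < T ∧
    ∀ (n : ℕ) (G : Finset (Finset (Fin n))) (X : Finset (Finset (Fin k)))
    (y : Fin k → Fin T → Fin n),
    (∀ f : Fin k → Fin T, (fun i => y i (f i)) ∈ SR (d + 2) G X) →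
    (∀ i, Function.Injective (y i)) → B3 d t k T n G y ∨
    ∃ (P : Multiset (Fin k) → Prop) (Y : Fin k → Fin (d + t + f + 1) → Fin n),
      Function.Injective (fun p : Fin k × Fin (d + t + f + 1) => Y p.1 p.2) ∧
      RealM (d + 2) G P Y ∧ Rules d P ∧
      ∀ e : Finset (Fin k), e.card = d + 2 → (e ∈ X ↔ P e.val) := by
  set s : ℕ := d + t + f + 1 with hs
  obtain ⟨T, hT⟩ := hom (d + 2) k s
  have hT0 : 0 < T := by
    obtain ⟨z, -, -, -⟩ := hT Unit ∅ (fun _ _ => ())
    have := (z ⟨0, hk⟩ ⟨0, by omega⟩).2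
    omega
  refine ⟨T, hT0, fun n G X y hsel hinj => ?_⟩
  obtain ⟨z, P, hz, hR⟩ := hT (Fin n) G y
  by_cases hno : B3 d t k T n G y
  · exact Or.inl hno
  right
  unfold B3 B2 at hno
  push Not at hno
  obtain ⟨hA, hB, hC⟩ := hno
  have hI : ∀ i j a b, y i a = y j b → i = j ∧ a = b := by
    intro i j a b hab
    by_cases h1 : i = j
    · subst h1
      exact ⟨rfl, hinj i hab⟩
    · exfalso
      have h2 := (mem_filter.mp (hsel (fun l => if l = i then a else b))).2.1
      have h3 := @h2 i j (by simp [hab, Ne.symm h1])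
      exact h1 h3
  set Y : Fin k → Fin s → Fin n := fun i a => y i (z i a) with hYd
  have hY : Function.Injective fun p : Fin k × Fin s => Y p.1 p.2 := by
    intro q q' h
    obtain ⟨h1, h2⟩ := hI _ _ _ _ h
    rw [h1] at h2
    exact Prod.ext h1 (hz _ h2)
  have hR' : RealM (d + 2) G P Y := hR
  have hA' : ¬ HasCfg d (gBip t) G Y := fun h => hA (h.comp hz)
  have hB' : ¬ HasCfg d (gCC t) G Y := fun h => hB (h.comp hz)
  have hC' : ¬ HasCfg d (gCI t) G Y := fun h => hC (h.comp hz)
  have hds : d + t ≤ s := by omega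
  -- the three rules
  have r4 : ∀ (β : Multiset (Fin k)) (i j : Fin k), β.card = d → i ≠ j → P (i ::ₘ j ::ₘ β) →
      P (i ::ₘ i ::ₘ β) ∨ P (j ::ₘ j ::ₘ β) := by
    intro β i j hβ hij h1
    by_contra h2
    push Not at h2
    refine hA' (cfg_of hds hY hR' hβ hij _ ?_)
    rintro (a | a) (b | b) hab
    · simp [gBip, h2.1]
    · simp [gBip, h1]
    · rw [Multiset.cons_swap] at h1
      simp [gBip, h1]
    · simp [gBip, h2.2]
  have r3 : ∀ (β : Multiset (Fin k)) (i j : Fin k), β.card = d → i ≠ j → P (i ::ₘ i ::ₘ β) →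
      P (j ::ₘ j ::ₘ β) → P (i ::ₘ j ::ₘ β) := by
    intro β i j hβ hij h1 h2
    by_contra h3
    refine hB' (cfg_of hds hY hR' hβ hij _ ?_)
    rintro (a | a) (b | b) hab
    · have : a ≠ b := fun h => hab (by rw [h])
      simp [gCC, h1, this]
    · simp [gCC, h3]
    · rw [Multiset.cons_swap] at h3
      simp [gCC, h3]
    · have : a ≠ b := fun h => hab (by rw [h])
      simp [gCC, h2, this]
  have r1 : ∀ (β : Multiset (Fin k)) (i j : Fin k), β.card = d → i ≠ j → P (i ::ₘ i ::ₘ β) →
      P (i ::ₘ j ::ₘ β) ∨ P (j ::ₘ j ::ₘ β) := by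
    intro β i j hβ hij h1
    by_contra h2
    push Not at h2
    refine hC' (cfg_of hds hY hR' hβ hij _ ?_)
    obtain ⟨h3, h4⟩ := h2
    rintro (a | a) (b | b) hab
    · have : a ≠ b := fun h => hab (by rw [h])
      simp [gCI, h1, this]
    · simp [gCI, h3]
    · rw [Multiset.cons_swap] at h3
      simp [gCI, h3]
    · simp [gCI, h4]
  refine ⟨P, Y, hY, hR', ⟨?_, ?_⟩, ?_⟩
  · intro γ i l hγ h1
    by_cases hil : i = l
    · rw [← hil]; exact h1
    · rcases r1 γ i l hγ hil h1 with h2 | h2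
      · exact h2
      · exact r3 γ i l hγ hil h1 h2
  · intro γ i l hγ h1
    by_cases hil : i = l
    · rw [← hil] at h1; exact Or.inl h1
    · exact r4 γ i l hγ hil h1
  · intro e he
    have h1 := (mem_filter.mp (hsel fun i => z i ⟨0, by omega⟩)).2.2 e he
    have hinj' : Function.Injective fun v : Fin k => ((v, ⟨0, by omega⟩) : Fin k × Fin s) := by
      intro v w hvw
      exact congrArg Prod.fst hvw
    have h2 := hR' (e.image fun v : Fin k => ((v, ⟨0, by omega⟩) : Fin k × Fin s))
      (by rw [card_image_of_injective _ hinj', he])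
    rw [image_image, image_val_of_injOn (hinj'.injOn), Multiset.map_map] at h2
    have h3 : e.val.map (Prod.fst ∘ fun v : Fin k => ((v, ⟨0, by omega⟩) : Fin k × Fin s)) = e.val :=
      Multiset.map_id _
    rw [h3] at h2
    rw [← h1]
    exact h2

/-- **The local theorem.** -/
theorem loc_r {d p f : ℕ} {F : Finset (Finset (Fin f))} (hF : ∀ e ∈ F, e.card = d + 2)
    (hcol : Col (p + 1) F) (t k : ℕ) (hk : 0 < k) : ∃ T : ℕ, 0 < T ∧
    ∀ (n : ℕ) (G : Finset (Finset (Fin n))), Free F G →
    ∀ (X : Finset (Finset (Fin k))) (y : Fin k → Fin T → Fin n),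
    (∀ f : Fin k → Fin T, (fun i => y i (f i)) ∈ SR (d + 2) G X) →
    (∀ i, Function.Injective (y i)) →
    (1 - 1 / (p : ℝ) ^ (d + 1)) * (k : ℝ) ^ (d + 2) < ((QR (d + 2) X).card : ℝ) →
    B3 d t k T n G y := by
  obtain ⟨T, hT0, hT⟩ := setup d t f k hk
  refine ⟨T, hT0, fun n G hG X y hsel hinj hX => ?_⟩
  rcases hT n G X y hsel hinj with h | ⟨P, Y, hY, hR', ⟨hd1, hd2⟩, hXP⟩
  · exact h
  exfalso
  -- copies of `F`
  have key : ∀ g : Fin f → Fin k, (∀ e ∈ F, P (e.val.map g)) → False := by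
    intro g hg
    obtain ⟨e, he, heG⟩ := hG (fun v => Y (g v) ⟨v, by omega⟩) (by
      intro v w hvw
      have h1 := @hY (g v, ⟨v, by omega⟩) (g w, ⟨w, by omega⟩) hvw
      have h2 := congrArg (fun x => (x.2 : ℕ)) h1
      exact Fin.ext h2)
    apply heG
    have hinj' : Function.Injective fun v : Fin f => ((g v, ⟨v, by omega⟩) : Fin k × Fin (d + t + f + 1)) := by
      intro v w hvw
      have h2 := congrArg (fun x => (x.2 : ℕ)) hvw
      exact Fin.ext h2
    have h1 := hR' (e.image fun v : Fin f => ((g v, ⟨v, by omega⟩) : Fin k × Fin (d + t + f + 1)))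
      (by rw [card_image_of_injective _ hinj', hF e he])
    rw [image_image, image_val_of_injOn (hinj'.injOn), Multiset.map_map] at h1
    exact h1.mpr (hg e he)
  have hT' : Tame (d + 2) P := by
    refine ⟨?_, fun γ i l hγ => hd1 γ i l (by omega), fun γ i l hγ => hd2 γ i l (by omega)⟩
    intro i h1
    refine key (fun _ => i) fun e he => ?_
    rw [Multiset.map_const']
    rw [← hF e he] at h1
    exact h1
  have hr2 : 2 ≤ d + 2 := by omega
  -- few classes
  obtain ⟨c, hc⟩ := hcol
  obtain ⟨cl, hcl⟩ := exists_cl (p := p) (Rel (d + 2) P) (fun i => hT'.rel_refl i)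
    (fun i j h => h.symm) (fun i j l h h' => hT'.rel_trans hr2 h h') (by
      rintro ⟨ι, hι⟩
      refine key (fun v => ι (c v)) fun e he => ?_
      rw [hT'.mem_iff hr2 (by rw [Multiset.card_map]; exact hF e he)]
      obtain ⟨x, hx, y', hy', hxy⟩ := hc e he
      exact ⟨ι (c x), Multiset.mem_map_of_mem _ hx, ι (c y'), Multiset.mem_map_of_mem _ hy',
        hι _ _ hxy⟩)
  have hQ : QR (d + 2) X ⊆ (univ : Finset (Fin (d + 2) → Fin k)).filter
      fun g => ¬ ∀ a b, cl (g a) = cl (g b) := by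
    intro g hg
    have h1 := (mem_filter.mp hg).2
    refine mem_filter.mpr ⟨mem_univ _, fun hall => ?_⟩
    have h2 : (univ.image g).card = d + 2 := by
      rw [card_image_of_injective _ h1.1, card_univ, Fintype.card_fin]
    have h3 := (hXP _ h2).mp h1.2
    rw [hT'.mem_iff hr2 (by exact h2)] at h3
    obtain ⟨x, hx, y', hy', hxy⟩ := h3
    obtain ⟨a, -, rfl⟩ := mem_image.mp (mem_val.mp hx)
    obtain ⟨b, -, rfl⟩ := mem_image.mp (mem_val.mp hy')
    exact hxy (hcl _ _ (hall a b))
  have hcount : ((QR (d + 2) X).card : ℝ) ≤ (1 - 1 / (p : ℝ) ^ (d + 1)) * (k : ℝ) ^ (d + 2) := by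
    have h1 := card_le_card hQ
    have h2 : ((univ : Finset (Fin (d + 2) → Fin k)).filter
        fun g => ∀ a b, cl (g a) = cl (g b)).card +
        ((univ : Finset (Fin (d + 2) → Fin k)).filter
        fun g => ¬ ∀ a b, cl (g a) = cl (g b)).card = k ^ (d + 2) := by
      rw [card_filter_add_card_filter_not, card_univ, Fintype.card_fun, Fintype.card_fin,
        Fintype.card_fin]
    have h3 := power_bound (d := d + 1) cl
    have h4 : ((QR (d + 2) X).card : ℝ) ≤ (((univ : Finset (Fin (d + 2) → Fin k)).filter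
        fun g => ¬ ∀ a b, cl (g a) = cl (g b)).card : ℝ) := by exact_mod_cast h1
    have h5 : (((univ : Finset (Fin (d + 2) → Fin k)).filter
        fun g => ∀ a b, cl (g a) = cl (g b)).card : ℝ) +
        (((univ : Finset (Fin (d + 2) → Fin k)).filter
        fun g => ¬ ∀ a b, cl (g a) = cl (g b)).card : ℝ) = (k : ℝ) ^ (d + 2) := by
      exact_mod_cast h2
    have h6 : (1 - 1 / (p : ℝ) ^ (d + 1)) * (k : ℝ) ^ (d + 2) =
        (k : ℝ) ^ (d + 2) - (k : ℝ) ^ (d + 2) / (p : ℝ) ^ (d + 1) := by ring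
    have h7 : (k : ℝ) ^ (d + 2) = (k : ℝ) ^ (d + 1 + 1) := rfl
    rw [h6]
    linarith
  linarith

/-- a system of sets given by an equivalence relation -/
def ClassLike (r : ℕ) {k : ℕ} (X : Finset (Finset (Fin k))) : Prop :=
  ∃ R : Fin k → Fin k → Prop, (∀ i, R i i) ∧ (∀ i j, R i j → R j i) ∧
    (∀ i j l, R i j → R j l → R i l) ∧
    ∀ e : Finset (Fin k), e.card = r → (e ∈ X ↔ ∃ x ∈ e, ∃ y ∈ e, ¬ R x y)

/-- **The second local theorem.** -/
theorem loc_s {d : ℕ} (hd : 1 ≤ d) (t k : ℕ) (hk : 0 < k) : ∃ T : ℕ, 0 < T ∧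
    ∀ (n : ℕ) (G : Finset (Finset (Fin n))) (X : Finset (Finset (Fin k)))
    (y : Fin k → Fin T → Fin n),
    (∀ f : Fin k → Fin T, (fun i => y i (f i)) ∈ SR (d + 2) G X) →
    (∀ i, Function.Injective (y i)) → ¬ ClassLike (d + 2) X → B3 d t k T n G y := by
  obtain ⟨T, hT0, hT⟩ := setup d t 0 k hk
  refine ⟨T, hT0, fun n G X y hsel hinj hX => ?_⟩
  rcases hT n G X y hsel hinj with h | ⟨P, Y, hY, hR', ⟨hd1, hd2⟩, hXP⟩
  · exact h
  exfalso
  set P' : Multiset (Fin k) → Prop := fun M => P M ∧ ∀ i, M ≠ Multiset.replicate (d + 2) i with hP'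
  have hrep : ∀ (i l j : Fin k) (γ : Multiset (Fin k)),
      i ::ₘ l ::ₘ γ = Multiset.replicate (d + 2) j → i = j ∧ l = j ∧ γ = Multiset.replicate d j := by
    intro i l j γ h
    have h1 : i = j := Multiset.eq_of_mem_replicate (h ▸ Multiset.mem_cons_self i _)
    have h2 : l = j := Multiset.eq_of_mem_replicate
      (h ▸ Multiset.mem_cons_of_mem (Multiset.mem_cons_self l _))
    refine ⟨h1, h2, ?_⟩
    rw [h1, h2, Multiset.replicate_succ, Multiset.replicate_succ, Multiset.cons_inj_right,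
      Multiset.cons_inj_right] at h
    exact h
  -- multisets containing an element with a constant member are members
  have hfull : ∀ i, P (Multiset.replicate (d + 2) i) → ∀ N : Multiset (Fin k), N.card = d + 1 →
      P (i ::ₘ N) := by
    intro i hi
    have gen : ∀ (B A : Multiset (Fin k)), B.card + A.card = d + 1 →
        P (i ::ₘ (Multiset.replicate B.card i + A)) → P (i ::ₘ (B + A)) := by
      intro B
      induction B using Multiset.induction with
      | empty => intro A _ hP; simpa using hP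
      | cons b B ih =>
        intro A hc hP
        rw [Multiset.card_cons] at hc hP
        rw [Multiset.replicate_succ, Multiset.cons_add] at hP
        have h1 := hd1 (Multiset.replicate B.card i + A) i b
          (by rw [Multiset.card_add, Multiset.card_replicate]; omega) hP
        have h2 : P (i ::ₘ (Multiset.replicate B.card i + (b ::ₘ A))) := by
          rw [Multiset.add_cons]; exact h1
        have h3 := ih (b ::ₘ A) (by rw [Multiset.card_cons]; omega) h2
        rw [Multiset.cons_add, ← Multiset.add_cons]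
        exact h3
    intro N hN
    have h1 := gen N 0 (by rw [Multiset.card_zero]; omega) (by
      rw [add_zero, hN, ← Multiset.replicate_succ]; exact hi)
    rwa [add_zero] at h1
  have hT' : Tame (d + 2) P' := by
    refine ⟨fun i h => h.2 i rfl, ?_, ?_⟩
    · rintro γ i l hγ ⟨h1, h2⟩
      refine ⟨hd1 γ i l (by omega) h1, fun j hj => ?_⟩
      obtain ⟨e1, e2, e3⟩ := hrep i l j γ hj
      refine h2 j ?_
      rw [e1, e3, ← Multiset.replicate_succ, ← Multiset.replicate_succ]
    · rintro γ i l hγ ⟨h1, h2⟩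
      by_cases hil : i = l
      · left
        rw [← hil] at h1 h2
        exact ⟨h1, h2⟩
      -- if one of the two new multisets is constant, then the other one is a member
      have aux : ∀ i l : Fin k, i ≠ l → P (i ::ₘ i ::ₘ γ) →
          P' (i ::ₘ i ::ₘ γ) ∨ P' (l ::ₘ l ::ₘ γ) := by
        intro i l hil h
        by_cases hc : ∀ j, i ::ₘ i ::ₘ γ ≠ Multiset.replicate (d + 2) j
        · exact Or.inl ⟨h, hc⟩
        · right
          push Not at hc
          obtain ⟨j, hj⟩ := hc
          obtain ⟨e1, -, e3⟩ := hrep i i j γ hj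
          subst e1
          obtain ⟨d', hd'⟩ : ∃ d', d = d' + 1 := ⟨d - 1, by omega⟩
          refine ⟨?_, fun j' hj' => ?_⟩
          · have h4 := hfull i (hj ▸ h) (l ::ₘ l ::ₘ Multiset.replicate d' i)
              (by rw [Multiset.card_cons, Multiset.card_cons, Multiset.card_replicate]; omega)
            have e5 : l ::ₘ l ::ₘ γ = i ::ₘ l ::ₘ l ::ₘ Multiset.replicate d' i := by
              rw [e3, hd', Multiset.replicate_succ, Multiset.cons_swap l i,
                Multiset.cons_swap l i]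
            rw [e5]
            exact h4
          · obtain ⟨e5, -, e6⟩ := hrep l l j' γ hj'
            have h5 : i ∈ γ := by
              rw [e3, hd', Multiset.replicate_succ]
              exact Multiset.mem_cons_self _ _
            rw [e6] at h5
            exact hil ((Multiset.eq_of_mem_replicate h5).trans e5.symm)
      rcases hd2 γ i l (by omega) h1 with h | h
      · exact aux i l hil h
      · exact (aux l i (Ne.symm hil) h).symm
  have hr2 : 2 ≤ d + 2 := by omega
  refine hX ⟨Rel (d + 2) P', fun i => hT'.rel_refl i, fun i j h => h.symm,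
    fun i j l h h' => hT'.rel_trans hr2 h h', fun e he => ?_⟩
  have h1 : P e.val ↔ P' e.val := by
    refine ⟨fun h => ⟨h, fun i hi => ?_⟩, fun h => h.1⟩
    have h2 := e.nodup
    rw [hi, Multiset.replicate_succ, Multiset.replicate_succ, Multiset.nodup_cons] at h2
    exact h2.1 (Multiset.mem_cons_self _ _)
  rw [hXP e he, h1, hT'.mem_iff hr2 he]
  rfl

/-- **The Erdős–Stone theorem with the three link graphs.** -/
theorem upper {d p f : ℕ} (hp : 1 ≤ p) {F : Finset (Finset (Fin f))} (hF : ∀ e ∈ F, e.card = d + 2)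
    (hcol : Col (p + 1) F) (t : ℕ) {ε : ℝ} (hε : 0 < ε) : ∃ δ : ℝ, 0 < δ ∧ ∃ N : ℕ,
    ∀ n : ℕ, N ≤ n → ∀ G : Finset (Finset (Fin n)), (∀ e ∈ G, e.card = d + 2) → Free F G →
      qc d (gBip t) n G + (qc d (gCC t) n G + qc d (gCI t) n G) ≤ δ →
      (G.card : ℝ) ≤ (1 - 1 / (p : ℝ) ^ (d + 1) + ε) * (n.choose (d + 2) : ℝ) := by
  refine main_r (d + 2) (1 - 1 / (p : ℝ) ^ (d + 1)) (fun _ G => Free F G) (B3 d t)
    (fun n G => qc d (gBip t) n G + (qc d (gCC t) n G + qc d (gCI t) n G)) ?_ (by omega)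
    (hq_or (B1 := BB d (gBip t)) (B2 := B2 d t) (fun _ _ _ _ _ h => h)
      (q1 := fun n G => qc d (gBip t) n G)
      (q2 := fun n G => qc d (gCC t) n G + qc d (gCI t) n G)
      (fun _ _ => qc_nonneg _ _ _ _)
      (fun _ _ => add_nonneg (qc_nonneg _ _ _ _) (qc_nonneg _ _ _ _))
      (hqc d _)
      (hq_or (B1 := BB d (gCC t)) (B2 := BB d (gCI t)) (fun _ _ _ _ _ h => h)
        (q1 := fun n G => qc d (gCC t) n G) (q2 := fun n G => qc d (gCI t) n G)
        (fun _ _ => qc_nonneg _ _ _ _) (fun _ _ => qc_nonneg _ _ _ _) (hqc d _) (hqc d _)))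
    (fun k hk => loc_r hF hcol t k hk) hε
  have hp' : (1 : ℝ) ≤ p := by exact_mod_cast hp
  have : (1 : ℝ) ≤ (p : ℝ) ^ (d + 1) := one_le_pow₀ hp'
  rw [sub_nonneg, div_le_one (by positivity)]
  exact this

end Pool.Agent.N442.ES
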