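import Mathlib
import Pool.Agent.N442.ES.Loc

/-!
# The construction: all sets with `d + 2` elements not contained in a class
-/

set_option autoImplicit false

open Finset
open scoped Classical

namespace Pool.Agent.N442.ES

/-- the sets with `r` elements on which `c` is not constant -/
noncomputable def TC (r : ℕ) {n : ℕ} (c : Fin n → ℕ) : Finset (Finset (Fin n)) :=
  (univ.powersetCard r).filter fun e => ∃ x ∈ e, ∃ y ∈ e, c x ≠ c y

/-- residue classes -/
def cm (p : ℕ) {n : ℕ} (v : Fin n) : ℕ := (v : ℕ) % p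

theorem TC_card_mem {r n : ℕ} {c : Fin n → ℕ} {e : Finset (Fin n)} (h : e ∈ TC r c) : e.card = r :=
  (mem_powersetCard.mp (mem_filter.mp h).1).2

theorem card_two {d n : ℕ} {α : Type} {F : SimpleGraph α} {G : Finset (Finset (Fin n))}
    {u : Fin d → Fin n} {f : α → Fin n} (h : IsCfg F G u f) {a b : α} (hab : a ≠ b) :
    (insert (f a) (insert (f b) (univ.image u))).card = d + 2 := by
  have hinl : Function.Injective u := fun x y hxy =>
    Sum.inl_injective (h.1 (show Sum.elim u f (Sum.inl x) = Sum.elim u f (Sum.inl y) from hxy))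
  have n1 : ∀ a, f a ∉ univ.image u := by
    intro a hm
    obtain ⟨x, -, hx⟩ := mem_image.mp hm
    have := h.1 (show Sum.elim u f (Sum.inl x) = Sum.elim u f (Sum.inr a) from hx)
    exact absurd this (by simp)
  have n2 : f a ∉ insert (f b) (univ.image u) := by
    intro hm
    rcases mem_insert.mp hm with hm | hm
    · have := h.1 (show Sum.elim u f (Sum.inr a) = Sum.elim u f (Sum.inr b) from hm)
      exact hab (Sum.inr_injective this)
    · exact n1 a hm
  rw [card_insert_of_notMem n2, card_insert_of_notMem (n1 b), card_image_of_injective _ hinl,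
    card_univ, Fintype.card_fin]

/-- non-adjacent vertices of a link graph lie in the class of all vertices of the sequence -/
theorem same_of_not {d n : ℕ} {α : Type} {F : SimpleGraph α} {c : Fin n → ℕ}
    {u : Fin d → Fin n} {f : α → Fin n} (h : IsCfg F (TC (d + 2) c) u f) {a b : α} (hab : a ≠ b)
    (hn : ¬ F.Adj a b) (i : Fin d) : c (f a) = c (u i) ∧ c (f b) = c (u i) := by
  rw [h.2 a b hab] at hn
  have hc := card_two h hab
  have h1 : ∀ x ∈ insert (f a) (insert (f b) (univ.image u)),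
      ∀ y ∈ insert (f a) (insert (f b) (univ.image u)), c x = c y := by
    by_contra hcon
    push Not at hcon
    exact hn (mem_filter.mpr ⟨mem_powersetCard.mpr ⟨subset_univ _, hc⟩, hcon⟩)
  have hu : u i ∈ insert (f a) (insert (f b) (univ.image u)) :=
    mem_insert_of_mem (mem_insert_of_mem (mem_image_of_mem _ (mem_univ i)))
  exact ⟨h1 _ (mem_insert_self _ _) _ hu,
    h1 _ (mem_insert_of_mem (mem_insert_self _ _)) _ hu⟩

/-- adjacent vertices of a link graph do not both lie in the class of a sequence inside a class -/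
theorem diff_of_adj {d n : ℕ} {α : Type} {F : SimpleGraph α} {c : Fin n → ℕ}
    {u : Fin d → Fin n} {f : α → Fin n} (h : IsCfg F (TC (d + 2) c) u f) {a b : α} (hab : F.Adj a b)
    {z : ℕ} (ha : c (f a) = z) (hb : c (f b) = z) (hu : ∀ i, c (u i) = z) : False := by
  have h1 := (h.2 a b hab.ne).mp hab
  obtain ⟨x, hx, y, hy, hxy⟩ := (mem_filter.mp h1).2
  have key : ∀ x ∈ insert (f a) (insert (f b) (univ.image u)), c x = z := by
    intro x hx
    rcases mem_insert.mp hx with e | hx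
    · rw [e]; exact ha
    · rcases mem_insert.mp hx with e | hx
      · rw [e]; exact hb
      · obtain ⟨i, -, rfl⟩ := mem_image.mp hx
        exact hu i
  exact hxy ((key x hx).trans (key y hy).symm)

/-- the elements of a sequence in the class of two non-adjacent vertices -/
theorem seq_of_not {d n : ℕ} {α : Type} {F : SimpleGraph α} {c : Fin n → ℕ}
    {u : Fin d → Fin n} {f : α → Fin n} (h : IsCfg F (TC (d + 2) c) u f) {a b : α} (hab : a ≠ b)
    (hn : ¬ F.Adj a b) (i j : Fin d) : c (u i) = c (u j) :=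
  (same_of_not h hab hn i).1.symm.trans (same_of_not h hab hn j).1

theorem no_bip {d n t : ℕ} (hd : 1 ≤ d) (ht : 2 ≤ t) {c : Fin n → ℕ} {u : Fin d → Fin n}
    {f : Fin t ⊕ Fin t → Fin n} : ¬ IsCfg (gBip t) (TC (d + 2) c) u f := by
  intro h
  have h01 : (⟨0, by omega⟩ : Fin t) ≠ ⟨1, by omega⟩ := by
    intro h; exact absurd (congrArg Fin.val h) (by simp)
  set p : Fin t := ⟨0, by omega⟩
  set q : Fin t := ⟨1, by omega⟩
  have i0 : Fin d := ⟨0, by omega⟩
  have a1 := same_of_not h (a := Sum.inl p) (b := Sum.inl q) (by simp [h01]) (by simp [gBip]) i0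
  have a2 := same_of_not h (a := Sum.inr p) (b := Sum.inr q) (by simp [h01]) (by simp [gBip]) i0
  exact diff_of_adj h (a := Sum.inl p) (b := Sum.inr p) (by simp [gBip]) a1.1 a2.1
    (fun i => seq_of_not h (a := Sum.inl p) (b := Sum.inl q) (by simp [h01]) (by simp [gBip]) i i0)

theorem no_cc {d n t : ℕ} (hd : 1 ≤ d) (ht : 2 ≤ t) {c : Fin n → ℕ} {u : Fin d → Fin n}
    {f : Fin t ⊕ Fin t → Fin n} : ¬ IsCfg (gCC t) (TC (d + 2) c) u f := by
  intro h
  have h01 : (⟨0, by omega⟩ : Fin t) ≠ ⟨1, by omega⟩ := by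
    intro h; exact absurd (congrArg Fin.val h) (by simp)
  set p : Fin t := ⟨0, by omega⟩
  set q : Fin t := ⟨1, by omega⟩
  have i0 : Fin d := ⟨0, by omega⟩
  have a1 := same_of_not h (a := Sum.inl p) (b := Sum.inr p) (by simp) (by simp [gCC]) i0
  have a2 := same_of_not h (a := Sum.inl q) (b := Sum.inr p) (by simp) (by simp [gCC]) i0
  exact diff_of_adj h (a := Sum.inl p) (b := Sum.inl q) (by simp [gCC, h01]) a1.1 a2.1
    (fun i => seq_of_not h (a := Sum.inl p) (b := Sum.inr p) (by simp) (by simp [gCC]) i i0)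

theorem no_ci {d n t : ℕ} (hd : 1 ≤ d) (ht : 2 ≤ t) {c : Fin n → ℕ} {u : Fin d → Fin n}
    {f : Fin t ⊕ Fin t → Fin n} : ¬ IsCfg (gCI t) (TC (d + 2) c) u f := by
  intro h
  have h01 : (⟨0, by omega⟩ : Fin t) ≠ ⟨1, by omega⟩ := by
    intro h; exact absurd (congrArg Fin.val h) (by simp)
  set p : Fin t := ⟨0, by omega⟩
  set q : Fin t := ⟨1, by omega⟩
  have i0 : Fin d := ⟨0, by omega⟩
  have a1 := same_of_not h (a := Sum.inl p) (b := Sum.inr p) (by simp) (by simp [gCI]) i0
  have a2 := same_of_not h (a := Sum.inl q) (b := Sum.inr p) (by simp) (by simp [gCI]) i0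
  exact diff_of_adj h (a := Sum.inl p) (b := Sum.inl q) (by simp [gCI, h01]) a1.1 a2.1
    (fun i => seq_of_not h (a := Sum.inl p) (b := Sum.inr p) (by simp) (by simp [gCI]) i i0)

/-- few colours, no copy of `F` -/
theorem TC_free {r n f p : ℕ} (hp : 0 < p) {F : Finset (Finset (Fin f))} (hF : ¬ Col p F) :
    Free F (TC r (cm p : Fin n → ℕ)) := by
  intro g _
  by_contra hcon
  push Not at hcon
  refine hF ⟨fun v => ⟨(g v : ℕ) % p, Nat.mod_lt _ hp⟩, fun e he => ?_⟩
  obtain ⟨x, hx, y, hy, hxy⟩ := (mem_filter.mp (hcon e he)).2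
  obtain ⟨a, ha, rfl⟩ := mem_image.mp hx
  obtain ⟨b, hb, rfl⟩ := mem_image.mp hy
  exact ⟨a, ha, b, hb, fun h => hxy (congrArg Fin.val h)⟩

/-- the size of a residue class -/
theorem class_card (n p j : ℕ) :
    ((univ : Finset (Fin n)).filter fun v => cm p v = j).card ≤ n / p + 1 := by
  have h1 : ((univ : Finset (Fin n)).filter fun v => cm p v = j).card ≤
      (range (n / p + 1)).card := by
    refine card_le_card_of_injOn (fun v : Fin n => (v : ℕ) / p) ?_ ?_
    · intro v _
      refine mem_coe.mpr (mem_range.mpr ?_)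
      have : (v : ℕ) / p ≤ n / p := Nat.div_le_div_right v.2.le
      change (v : ℕ) / p < n / p + 1
      omega
    · intro v hv w hw hvw
      have a1 : (v : ℕ) % p = j := (mem_filter.mp (mem_coe.mp hv)).2
      have a2 : (w : ℕ) % p = j := (mem_filter.mp (mem_coe.mp hw)).2
      have hvw' : (v : ℕ) / p = (w : ℕ) / p := hvw
      apply Fin.ext
      rw [← Nat.div_add_mod (v : ℕ) p, ← Nat.div_add_mod (w : ℕ) p, a1, a2, hvw']
  rwa [card_range] at h1

/-- the number of sets inside a class -/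
theorem inside_card (r n p : ℕ) (hp : 0 < p) (hr : 0 < r) :
    (r.factorial : ℝ) * ((((univ : Finset (Fin n)).powersetCard r).filter
      fun e => ¬ ∃ x ∈ e, ∃ y ∈ e, cm p x ≠ cm p y).card : ℝ) ≤
      p * ((n : ℝ) / p + 1) ^ r := by
  set G := ((univ : Finset (Fin n)).powersetCard r).filter
      fun e => ¬ ∃ x ∈ e, ∃ y ∈ e, cm p x ≠ cm p y with hG
  have h1 := QR_card r G (fun e he => (mem_powersetCard.mp (mem_filter.mp he).1).2)
  have h2 : QR r G ⊆ (univ : Finset (Fin p)).biUnion fun j =>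
      Fintype.piFinset fun _ : Fin r => (univ : Finset (Fin n)).filter fun v => cm p v = j := by
    intro f hf
    have h3 := (mem_filter.mp (mem_filter.mp hf).2.2).2
    push Not at h3
    rw [mem_biUnion]
    refine ⟨⟨(f ⟨0, hr⟩ : ℕ) % p, Nat.mod_lt _ hp⟩, mem_univ _, ?_⟩
    rw [Fintype.mem_piFinset]
    intro a
    refine mem_filter.mpr ⟨mem_univ _, ?_⟩
    exact h3 _ (mem_image_of_mem _ (mem_univ _)) _ (mem_image_of_mem _ (mem_univ _))
  have h4 := (card_le_card h2).trans card_biUnion_le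
  have h5 : ∀ j : Fin p, (Fintype.piFinset fun _ : Fin r =>
      (univ : Finset (Fin n)).filter fun v => cm p v = j).card ≤ (n / p + 1) ^ r := by
    intro j
    rw [Fintype.card_piFinset, prod_const, card_univ, Fintype.card_fin]
    exact Nat.pow_le_pow_left (class_card n p j) r
  have h6 := h4.trans (sum_le_sum fun j _ => h5 j)
  rw [sum_const, card_univ, Fintype.card_fin, smul_eq_mul, h1] at h6
  have h7 : (r.factorial : ℝ) * (G.card : ℝ) ≤ p * (((n / p : ℕ) : ℝ) + 1) ^ r := by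
    exact_mod_cast h6
  refine h7.trans ?_
  have h8 : ((n / p : ℕ) : ℝ) ≤ (n : ℝ) / p := Nat.cast_div_le
  gcongr

open Filter Topology in
/-- **The lower bound.** -/
theorem TC_lower (d p : ℕ) (hp : 1 ≤ p) {ε : ℝ} (hε : 0 < ε) : ∃ N : ℕ, ∀ n : ℕ, N ≤ n →
    (1 - 1 / (p : ℝ) ^ (d + 1) - ε) * (n.choose (d + 2) : ℝ) ≤
      ((TC (d + 2) (cm p : Fin n → ℕ)).card : ℝ) := by
  have hp0 : (0 : ℝ) < p := by exact_mod_cast hp
  have hp1 : (1 : ℝ) ≤ p := by exact_mod_cast hp
  set r := d + 2 with hr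
  have hlim : Tendsto (fun n : ℕ => (1 + (p : ℝ) / n) ^ r) atTop (𝓝 1) := by
    have h1 : Tendsto (fun n : ℕ => 1 + (p : ℝ) / n) atTop (𝓝 (1 + 0)) :=
      tendsto_const_nhds.add (tendsto_const_div_atTop_nhds_zero_nat (p : ℝ))
    have h2 := h1.pow r
    simpa using h2
  have hev := hlim.eventually_lt_const (show (1 : ℝ) < 1 + ε / 4 by linarith)
  obtain ⟨N1, hN1⟩ := eventually_atTop.mp hev
  obtain ⟨N2, hN2⟩ := exists_nat_gt ((r : ℝ) ^ 2 * (1 + ε) / (3 / 4 * ε))
  refine ⟨max (max N1 N2) 1, fun n hn => ?_⟩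
  have hn1 : 1 ≤ n := (le_max_right _ _).trans hn
  have hn0 : (0 : ℝ) < n := by exact_mod_cast hn1
  have a1 := hN1 n ((le_max_left _ _).trans ((le_max_left _ _).trans hn))
  have a2 : (r : ℝ) ^ 2 * (1 + ε) / (3 / 4 * ε) < n :=
    hN2.trans_le (by exact_mod_cast (le_max_right _ _).trans ((le_max_left _ _).trans hn))
  rw [div_lt_iff₀ (by positivity)] at a2
  -- the complement
  set G := ((univ : Finset (Fin n)).powersetCard r).filter
      fun e => ¬ ∃ x ∈ e, ∃ y ∈ e, cm p x ≠ cm p y with hG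
  have h1 : (TC r (cm p : Fin n → ℕ)).card + G.card = n.choose r := by
    rw [TC, hG, card_filter_add_card_filter_not, card_powersetCard, card_univ, Fintype.card_fin]
  have h2 := inside_card r n p (by omega) (by omega)
  have h3 : (r.factorial : ℝ) * (n.choose r : ℝ) = ((n.descFactorial r : ℕ) : ℝ) := by
    rw [Nat.descFactorial_eq_factorial_mul_choose]
    push_cast
    ring
  have h4 := desc_lower r n
  have hfac : (0 : ℝ) < r.factorial := by exact_mod_cast Nat.factorial_pos r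
  set A : ℝ := (r.factorial : ℝ) * (n.choose r : ℝ) with hA
  set Z : ℝ := (n : ℝ) ^ r with hZ
  have hZ0 : 0 < Z := by positivity
  have e1 : (p : ℝ) * ((n : ℝ) / p + 1) ^ r = 1 / (p : ℝ) ^ (d + 1) * (Z * (1 + p / n) ^ r) := by
    have : (n : ℝ) / p + 1 = n / p * (1 + p / n) := by field_simp
    rw [this, mul_pow, div_pow]
    have e2 : (p : ℝ) ^ r = p * (p : ℝ) ^ (d + 1) := by rw [hr, pow_succ]; ring
    rw [e2, hZ]
    field_simp
  have e2 : (n : ℝ) ^ (r - 1) * n = Z := by
    rw [hZ, ← pow_succ]; congr 1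
  set U : ℝ := (n : ℝ) ^ (r - 1) with hU
  have hU0 : 0 < U := by positivity
  -- `A ≥ Z - r² U`
  have h5 : Z ≤ A + (r : ℝ) ^ 2 * U := by rw [h3]; exact h4
  set a : ℝ := 1 / (p : ℝ) ^ (d + 1) with ha
  have ha0 : 0 < a := by positivity
  have ha1 : a ≤ 1 := by
    rw [ha, div_le_one (by positivity)]
    exact one_le_pow₀ hp1
  have h6 : (r.factorial : ℝ) * (G.card : ℝ) ≤ a * (Z * (1 + ε / 4)) := by
    refine h2.trans ?_
    rw [e1]
    have : Z * (1 + p / n) ^ r ≤ Z * (1 + ε / 4) := mul_le_mul_of_nonneg_left a1.le hZ0.le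
    exact mul_le_mul_of_nonneg_left this ha0.le
  have h7 : (r : ℝ) ^ 2 * U * (1 + ε) ≤ 3 / 4 * ε * Z := by
    rw [← e2]
    have : (r : ℝ) ^ 2 * (1 + ε) * U ≤ n * (3 / 4 * ε) * U :=
      mul_le_mul_of_nonneg_right a2.le hU0.le
    nlinarith
  have h8 : a * (Z * (1 + ε / 4)) ≤ (a + ε) * A := by
    have b1 : (a + ε) * (Z - (r : ℝ) ^ 2 * U) ≤ (a + ε) * A :=
      mul_le_mul_of_nonneg_left (by linarith) (by positivity)
    have b2 : a * (Z * (1 + ε / 4)) ≤ (a + ε) * (Z - (r : ℝ) ^ 2 * U) := by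
      have b3 : (a + ε) * ((r : ℝ) ^ 2 * U) ≤ (1 + ε) * ((r : ℝ) ^ 2 * U) :=
        mul_le_mul_of_nonneg_right (by linarith) (by positivity)
      have b4 : a * (ε / 4) * Z ≤ 1 * (ε / 4) * Z := by gcongr
      nlinarith
    exact b2.trans b1
  have h9 : (G.card : ℝ) ≤ (a + ε) * (n.choose r : ℝ) := by
    have : (r.factorial : ℝ) * (G.card : ℝ) ≤ (r.factorial : ℝ) * ((a + ε) * (n.choose r : ℝ)) := by
      calc _ ≤ (a + ε) * A := h6.trans h8
        _ = _ := by rw [hA]; ring
    exact le_of_mul_le_mul_left this hfac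
  have h10 : ((TC r (cm p : Fin n → ℕ)).card : ℝ) + (G.card : ℝ) = (n.choose r : ℝ) := by
    exact_mod_cast h1
  linarith

end Pool.Agent.N442.ES
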