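import Mathlib
import Pool.Agent.N442.ES.Cons

/-!
# The structure theorem
-/

set_option autoImplicit false

open Finset
open scoped Classical

namespace Pool.Agent.N442.ES

open Pool.Agent.Y47.BU Pool.Agent.N442.LP

/-- the elements in a common non-edge with `i` -/
noncomputable def cls (r : ℕ) {k : ℕ} (X : Finset (Finset (Fin k))) (i : Fin k) : Finset (Fin k) :=
  univ.filter fun j => ∃ e : Finset (Fin k), e.card = r ∧ e ∉ X ∧ i ∈ e ∧ j ∈ e

/-- a non-edge with a small class -/
def Small (d : ℕ) {k : ℕ} (X : Finset (Finset (Fin k))) (g : Fin (d + 2) → Fin k) : Prop :=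
  univ.image g ∉ X ∧ (cls (d + 2) X (g 0)).card ≤ 2 * d + 2

theorem count_small (d : ℕ) {k : ℕ} (X : Finset (Finset (Fin k))) :
    ((univ : Finset (Fin (d + 2) → Fin k)).filter
      fun g => Function.Injective g ∧ Small d X g).card ≤ k * (2 * d + 2) ^ (d + 2) := by
  set I : Finset (Fin k) := univ.filter fun i => (cls (d + 2) X i).card ≤ 2 * d + 2 with hI
  have h1 : ((univ : Finset (Fin (d + 2) → Fin k)).filter
      fun g => Function.Injective g ∧ Small d X g) ⊆
      I.biUnion fun i => Fintype.piFinset fun _ : Fin (d + 2) => cls (d + 2) X i := by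
    intro g hg
    obtain ⟨hinj, hX, hs⟩ := (mem_filter.mp hg).2
    rw [mem_biUnion]
    refine ⟨g 0, mem_filter.mpr ⟨mem_univ _, hs⟩, ?_⟩
    rw [Fintype.mem_piFinset]
    intro a
    refine mem_filter.mpr ⟨mem_univ _, univ.image g, ?_, hX, mem_image_of_mem _ (mem_univ _),
      mem_image_of_mem _ (mem_univ _)⟩
    rw [card_image_of_injective _ hinj, card_univ, Fintype.card_fin]
  refine (card_le_card h1).trans (card_biUnion_le.trans ?_)
  have h2 : ∀ i ∈ I, (Fintype.piFinset fun _ : Fin (d + 2) => cls (d + 2) X i).card ≤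
      (2 * d + 2) ^ (d + 2) := by
    intro i hi
    rw [Fintype.card_piFinset, prod_const, card_univ, Fintype.card_fin]
    exact Nat.pow_le_pow_left (mem_filter.mp hi).2 _
  refine (sum_le_sum h2).trans ?_
  rw [sum_const, smul_eq_mul]
  refine Nat.mul_le_mul_right _ ?_
  refine (card_le_univ I).trans (le_of_eq ?_)
  rw [Fintype.card_fin]

theorem exists_perm {k r : ℕ} {g0 g : Fin r → Fin k} (h0 : Function.Injective g0)
    (h : Function.Injective g) : ∃ σ : Equiv.Perm (Fin k), ∀ a, σ (g0 a) = g a := by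
  set e : {x // x ∈ Set.range g0} ≃ {x // x ∈ Set.range g} :=
    (Equiv.ofInjective g0 h0).symm.trans (Equiv.ofInjective g h) with he
  refine ⟨e.extendSubtype, fun a => ?_⟩
  rw [e.extendSubtype_apply_of_mem (g0 a) ⟨a, rfl⟩]
  have h1 : (Equiv.ofInjective g0 h0).symm ⟨g0 a, ⟨a, rfl⟩⟩ = a := by
    rw [Equiv.symm_apply_eq]
    rfl
  simp only [he, Equiv.trans_apply]
  rw [h1]
  rfl

theorem mem_pat_comp {k n : ℕ} (G : Finset (Finset (Fin n))) (φ : Fin k → Fin n)
    (σ : Equiv.Perm (Fin k)) (e : Finset (Fin k)) : e ∈ pat G (φ ∘ σ) ↔ e.image σ ∈ pat G φ := by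
  unfold pat
  rw [mem_filter, mem_filter, image_image]
  simp

theorem small_perm (d : ℕ) {k n : ℕ} (G : Finset (Finset (Fin n))) (φ : Fin k → Fin n)
    (σ : Equiv.Perm (Fin k)) (g : Fin (d + 2) → Fin k) :
    Small d (pat G (φ ∘ σ)) g ↔ Small d (pat G φ) (σ ∘ g) := by
  unfold Small
  have h1 : cls (d + 2) (pat G φ) ((σ ∘ g) 0) = (cls (d + 2) (pat G (φ ∘ σ)) (g 0)).image σ := by
    ext j
    unfold cls
    simp only [mem_filter, mem_univ, true_and, mem_image, Function.comp_apply]
    constructor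
    · rintro ⟨e, he, heX, h3, h4⟩
      refine ⟨σ.symm j, ⟨e.image σ.symm, ?_, ?_, ?_, ?_⟩, σ.apply_symm_apply j⟩
      · rw [card_image_of_injective _ σ.symm.injective, he]
      · rw [mem_pat_comp, image_image]
        have : (σ : Fin k → Fin k) ∘ σ.symm = id := by funext x; simp
        rw [this, image_id]
        exact heX
      · exact mem_image.mpr ⟨σ (g 0), h3, σ.symm_apply_apply _⟩
      · exact mem_image_of_mem _ h4
    · rintro ⟨i, ⟨e, he, heX, h3, h4⟩, rfl⟩
      rw [mem_pat_comp] at heX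
      exact ⟨e.image σ, by rw [card_image_of_injective _ σ.injective, he], heX,
        mem_image_of_mem _ h3, mem_image_of_mem _ h4⟩
  rw [mem_pat_comp, image_image, h1, card_image_of_injective _ σ.injective]

theorem sym_count (d : ℕ) {k n : ℕ} (G : Finset (Finset (Fin n))) {g0 : Fin (d + 2) → Fin k}
    (h0 : Function.Injective g0) : k.descFactorial (d + 2) *
      ((univ : Finset (Fin k → Fin n)).filter fun φ => Small d (pat G φ) g0).card ≤
      n ^ k * (k * (2 * d + 2) ^ (d + 2)) := by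
  have h1 : ∀ g : Fin (d + 2) → Fin k, Function.Injective g →
      ((univ : Finset (Fin k → Fin n)).filter fun φ => Small d (pat G φ) g0).card =
      ((univ : Finset (Fin k → Fin n)).filter fun φ => Small d (pat G φ) g).card := by
    intro g hg
    obtain ⟨σ, hσ⟩ := exists_perm h0 hg
    have hσ' : (σ : Fin k → Fin k) ∘ g0 = g := funext hσ
    symm
    refine card_bij (fun φ _ => φ ∘ σ) ?_ ?_ ?_
    · intro φ hφ
      refine mem_filter.mpr ⟨mem_univ _, ?_⟩
      rw [small_perm, hσ']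
      exact (mem_filter.mp hφ).2
    · intro φ _ φ' _ h
      funext x
      have := congrFun h (σ.symm x)
      simpa using this
    · intro φ hφ
      refine ⟨φ ∘ σ.symm, mem_filter.mpr ⟨mem_univ _, ?_⟩, ?_⟩
      · rw [← hσ', ← small_perm]
        have : (φ ∘ σ.symm) ∘ σ = φ := by funext x; simp
        rw [this]
        exact (mem_filter.mp hφ).2
      · funext x; simp
  calc k.descFactorial (d + 2) *
      ((univ : Finset (Fin k → Fin n)).filter fun φ => Small d (pat G φ) g0).card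
      = ∑ g ∈ (univ : Finset (Fin (d + 2) → Fin k)).filter Function.Injective,
        ((univ : Finset (Fin k → Fin n)).filter fun φ => Small d (pat G φ) g).card := by
        rw [← inj_card_r (d + 2) k, ← smul_eq_mul, ← sum_const]
        exact sum_congr rfl fun g hg => h1 g (mem_filter.mp hg).2
    _ = ∑ φ : Fin k → Fin n, ((univ : Finset (Fin (d + 2) → Fin k)).filter
        fun g => Function.Injective g ∧ Small d (pat G φ) g).card := by
        simp only [card_filter]
        rw [sum_comm]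
        refine sum_congr rfl fun φ _ => ?_
        rw [sum_filter]
        refine sum_congr rfl fun g _ => ?_
        by_cases h : Function.Injective g <;> simp [h]
    _ ≤ ∑ _φ : Fin k → Fin n, k * (2 * d + 2) ^ (d + 2) :=
        sum_le_sum fun φ _ => count_small d (pat G φ)
    _ = n ^ k * (k * (2 * d + 2) ^ (d + 2)) := by
        rw [sum_const, card_univ, Fintype.card_fun, Fintype.card_fin, Fintype.card_fin,
          smul_eq_mul]

/-- the densities of the three link graphs -/
noncomputable def q3 (d t n : ℕ) (G : Finset (Finset (Fin n))) : ℝ :=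
  qc d (gBip t) n G + (qc d (gCC t) n G + qc d (gCI t) n G)

theorem hq3 (d t k T : ℕ) : ∃ C : ℝ, 0 ≤ C ∧ ∀ n : ℕ, 0 < n → ∀ G : Finset (Finset (Fin n)),
      (((univ : Finset (Fin k → Fin T → Fin n)).filter (B3 d t k T n G)).card : ℝ) ≤
        C * q3 d t n G * (n : ℝ) ^ (k * T) :=
  hq_or (B1 := BB d (gBip t)) (B2 := B2 d t) (fun _ _ _ _ _ h => h)
      (q1 := fun n G => qc d (gBip t) n G)
      (q2 := fun n G => qc d (gCC t) n G + qc d (gCI t) n G)
      (fun _ _ => qc_nonneg _ _ _ _)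
      (fun _ _ => add_nonneg (qc_nonneg _ _ _ _) (qc_nonneg _ _ _ _))
      (hqc d _)
      (hq_or (B1 := BB d (gCC t)) (B2 := BB d (gCI t)) (fun _ _ _ _ _ h => h)
        (q1 := fun n G => qc d (gCC t) n G) (q2 := fun n G => qc d (gCI t) n G)
        (fun _ _ => qc_nonneg _ _ _ _) (fun _ _ => qc_nonneg _ _ _ _) (hqc d _) (hqc d _)) k T

/-- almost all patterns are given by equivalence relations -/
theorem few_bad {d : ℕ} (hd : 1 ≤ d) (t k : ℕ) (hk : 0 < k) {η : ℝ} (hη : 0 < η) :
    ∃ δ : ℝ, 0 < δ ∧ ∃ N : ℕ, ∀ n : ℕ, N ≤ n → ∀ G : Finset (Finset (Fin n)), q3 d t n G ≤ δ →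
      (((univ : Finset (Fin k → Fin n)).filter
        fun φ => Function.Injective φ ∧ ¬ ClassLike (d + 2) (pat G φ)).card : ℝ) ≤
        η * (n : ℝ) ^ k := by
  set M : ℝ := (Fintype.card (Finset (Finset (Fin k))) : ℝ) with hM
  have hM0 : 0 < M := by
    rw [hM]
    exact_mod_cast Fintype.card_pos
  obtain ⟨T, hT, hl⟩ := loc_s hd t k hk
  obtain ⟨C, hC, hCq⟩ := hq3 d t k T
  obtain ⟨δ, hδ, N, hN⟩ := few_gen k T hk hT hC (c := η / M) (by positivity)
  refine ⟨δ, hδ, max N 1, fun n hn G hqd => ?_⟩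
  have hn1 : 0 < n := (le_max_right N 1).trans hn
  have hSX : ∀ X : Finset (Finset (Fin k)), ¬ ClassLike (d + 2) X →
      ((SR (d + 2) G X).card : ℝ) ≤ η / M * (n : ℝ) ^ k := fun X hX =>
    hN n ((le_max_left _ _).trans hn) (SR (d + 2) G X) _ (q3 d t n G) (hCq n hn1 G) hqd
      (fun y h1 h2 => mem_filter.mpr ⟨mem_univ _, hl n G X y h1 h2 hX⟩)
  have h1 : ((univ : Finset (Fin k → Fin n)).filter
      fun φ => Function.Injective φ ∧ ¬ ClassLike (d + 2) (pat G φ)) ⊆
      (univ.filter fun X : Finset (Finset (Fin k)) => ¬ ClassLike (d + 2) X).biUnion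
        fun X => SR (d + 2) G X := by
    intro φ hφ
    have h := (mem_filter.mp hφ).2
    rw [mem_biUnion]
    exact ⟨pat G φ, mem_filter.mpr ⟨mem_univ _, h.2⟩, mem_SR_pat (d + 2) G h.1⟩
  have h2 := (card_le_card h1).trans card_biUnion_le
  refine (Nat.cast_le.mpr h2).trans ?_
  rw [Nat.cast_sum]
  refine (sum_le_sum fun X hX => hSX X (mem_filter.mp hX).2).trans ?_
  rw [sum_const, nsmul_eq_mul]
  have h4 : ((univ.filter fun X : Finset (Finset (Fin k)) => ¬ ClassLike (d + 2) X).card : ℝ) ≤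
      M := by
    rw [hM]
    exact_mod_cast card_le_univ _
  calc _ ≤ M * (η / M * (n : ℝ) ^ k) := mul_le_mul_of_nonneg_right h4 (by positivity)
    _ = η * (n : ℝ) ^ k := by field_simp

section point

variable {d M n : ℕ} (G : Finset (Finset (Fin n))) (φ0 : Fin M → Fin n)

/-- `v` and the `i`-th vertex of the sample lie in a non-edge with further vertices of the sample -/
def Tog (d : ℕ) (v : Fin n) (i : Fin M) : Prop := ∃ J : Finset (Fin M), J.card = d + 1 ∧ i ∈ J ∧
  v ∉ J.image φ0 ∧ insert v (J.image φ0) ∉ G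

/-- the indices together with `v` -/
def TogS (d : ℕ) (v : Fin n) : Set ℕ := {i | ∃ hi : i < M, Tog G φ0 d v ⟨i, hi⟩}

/-- the colouring given by a sample -/
noncomputable def cc (d : ℕ) (v : Fin n) : ℕ :=
  if (TogS G φ0 d v).Nonempty then sInf (TogS G φ0 d v) else M + v

variable {G φ0}

theorem cc_mem {v : Fin n} (h : (TogS G φ0 d v).Nonempty) : cc G φ0 d v ∈ TogS G φ0 d v := by
  unfold cc
  rw [if_pos h]
  exact Nat.sInf_mem h

theorem point {ψ : Fin (d + 2) → Fin n} (hinj : Function.Injective (Fin.append φ0 ψ))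
    (hc : ClassLike (d + 2) (pat G (Fin.append φ0 ψ)))
    (hs : ¬ Small d (pat G (Fin.append φ0 ψ)) (Fin.natAdd M)) :
    (univ.image ψ ∈ G ↔ univ.image ψ ∈ TC (d + 2) (cc G φ0 d)) := by
  set φ := Fin.append φ0 ψ with hφ
  obtain ⟨R, hR1, hR2, hR3, hR⟩ := hc
  have hp : ∀ a : Fin (d + 2), φ (Fin.natAdd M a) = ψ a := fun a => Fin.append_right φ0 ψ a
  have hq : ∀ i : Fin M, φ (Fin.castAdd (d + 2) i) = φ0 i := fun i => Fin.append_left φ0 ψ i
  have hne : ∀ (a : Fin (d + 2)) (i : Fin M), Fin.natAdd M a ≠ Fin.castAdd (d + 2) i := by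
    intro a i h
    have := congrArg Fin.val h
    simp at this
    omega
  have hqi : Function.Injective (Fin.castAdd (d + 2) : Fin M → Fin (M + (d + 2))) :=
    Fin.castAdd_injective M (d + 2)
  have hpi : Function.Injective (Fin.natAdd M : Fin (d + 2) → Fin (M + (d + 2))) :=
    fun a b h => by
      have := congrArg Fin.val h
      simp at this
      exact Fin.ext this
  have hψ : Function.Injective ψ := fun a b h => hpi (hinj (by rw [hp, hp, h]))
  -- the test sets
  have hS : ∀ (a : Fin (d + 2)) (J : Finset (Fin M)), J.card = d + 1 →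
      (insert (Fin.natAdd M a) (J.image (Fin.castAdd (d + 2)))).card = d + 2 ∧
      (insert (Fin.natAdd M a) (J.image (Fin.castAdd (d + 2)))).image φ =
        insert (ψ a) (J.image φ0) := by
    intro a J hJ
    constructor
    · rw [card_insert_of_notMem, card_image_of_injective _ hqi, hJ]
      intro h
      obtain ⟨i, -, hi⟩ := mem_image.mp h
      exact hne a i hi.symm
    · rw [image_insert, image_image, hp]
      congr 1
      exact image_congr fun i _ => hq i
  have T1 : ∀ (a : Fin (d + 2)) (i : Fin M), Tog G φ0 d (ψ a) i →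
      R (Fin.natAdd M a) (Fin.castAdd (d + 2) i) := by
    rintro a i ⟨J, hJ, hiJ, -, hG⟩
    obtain ⟨h1, h2⟩ := hS a J hJ
    have h3 : insert (Fin.natAdd M a) (J.image (Fin.castAdd (d + 2))) ∉ pat G φ := by
      unfold pat
      rw [mem_filter, h2]
      simp [hG]
    rw [hR _ h1] at h3
    push Not at h3
    exact h3 _ (mem_insert_self _ _) _ (mem_insert_of_mem (mem_image_of_mem _ hiJ))
  have T2 : ∀ a : Fin (d + 2), d + 1 ≤ ((univ : Finset (Fin M)).filter
      fun i => R (Fin.natAdd M a) (Fin.castAdd (d + 2) i)).card → ∀ i,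
      R (Fin.natAdd M a) (Fin.castAdd (d + 2) i) → Tog G φ0 d (ψ a) i := by
    intro a hcard i hi
    obtain ⟨J, hJ1, hJ2, hJ3⟩ := exists_subsuperset_card_eq
      (show ({i} : Finset (Fin M)) ⊆ (univ : Finset (Fin M)).filter
        fun i => R (Fin.natAdd M a) (Fin.castAdd (d + 2) i) by
        rw [singleton_subset_iff]
        exact mem_filter.mpr ⟨mem_univ _, hi⟩) (by rw [card_singleton]; omega) hcard
    obtain ⟨h1, h2⟩ := hS a J hJ3
    refine ⟨J, hJ3, hJ1 (mem_singleton_self i), ?_, ?_⟩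
    · intro h
      obtain ⟨j, -, hj⟩ := mem_image.mp h
      rw [← hq, ← hp] at hj
      exact hne a j (hinj hj).symm
    · intro hG
      have h3 : insert (Fin.natAdd M a) (J.image (Fin.castAdd (d + 2))) ∈ pat G φ := by
        unfold pat
        rw [mem_filter, h2]
        exact ⟨mem_univ _, hG⟩
      rw [hR _ h1] at h3
      obtain ⟨x, hx, y, hy, hxy⟩ := h3
      have key : ∀ x ∈ insert (Fin.natAdd M a) (J.image (Fin.castAdd (d + 2))),
          R (Fin.natAdd M a) x := by
        intro x hx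
        rcases mem_insert.mp hx with e | hx
        · rw [e]; exact hR1 _
        · obtain ⟨j, hj, rfl⟩ := mem_image.mp hx
          exact (mem_filter.mp (hJ2 hj)).2
      exact hxy (hR3 _ _ _ (hR2 _ _ (key x hx)) (key y hy))
  have himg : (univ.image (Fin.natAdd M : Fin (d + 2) → Fin (M + (d + 2)))).image φ =
      univ.image ψ := by
    rw [image_image]
    exact image_congr fun a _ => hp a
  have hpc : (univ.image (Fin.natAdd M : Fin (d + 2) → Fin (M + (d + 2)))).card = d + 2 := by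
    rw [card_image_of_injective _ hpi, card_univ, Fintype.card_fin]
  have hψc : (univ.image ψ).card = d + 2 := by
    rw [card_image_of_injective _ hψ, card_univ, Fintype.card_fin]
  have hGp : univ.image ψ ∈ G ↔
      univ.image (Fin.natAdd M : Fin (d + 2) → Fin (M + (d + 2))) ∈ pat G φ := by
    unfold pat
    rw [mem_filter, himg]
    simp
  constructor
  · intro hG
    refine mem_filter.mpr ⟨mem_powersetCard.mpr ⟨subset_univ _, hψc⟩, ?_⟩
    by_contra hcon
    push Not at hcon
    have hcon' : ∀ a b, cc G φ0 d (ψ a) = cc G φ0 d (ψ b) := fun a b =>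
      hcon _ (mem_image_of_mem _ (mem_univ a)) _ (mem_image_of_mem _ (mem_univ b))
    by_cases h0 : (TogS G φ0 d (ψ 0)).Nonempty
    · obtain ⟨hi, -⟩ := cc_mem h0
      have hall : ∀ a, R (Fin.natAdd M a) (Fin.castAdd (d + 2) ⟨cc G φ0 d (ψ 0), hi⟩) := by
        intro a
        have h1 : (TogS G φ0 d (ψ a)).Nonempty := by
          by_contra hno
          have h2 := hcon' a 0
          rw [cc, if_neg hno] at h2
          omega
        obtain ⟨hi', ht⟩ := cc_mem h1
        have h3 := T1 a _ ht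
        have h4 : (⟨cc G φ0 d (ψ a), hi'⟩ : Fin M) = ⟨cc G φ0 d (ψ 0), hi⟩ :=
          Fin.ext (hcon' a 0)
        rw [h4] at h3
        exact h3
      rw [hGp, hR _ hpc] at hG
      obtain ⟨x, hx, y, hy, hxy⟩ := hG
      obtain ⟨a, -, rfl⟩ := mem_image.mp hx
      obtain ⟨b, -, rfl⟩ := mem_image.mp hy
      exact hxy (hR3 _ _ _ (hall a) (hR2 _ _ (hall b)))
    · have h1 := hcon' 0 1
      rw [cc, if_neg h0] at h1
      by_cases h2 : (TogS G φ0 d (ψ 1)).Nonempty
      · obtain ⟨hi, -⟩ := cc_mem h2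
        omega
      · rw [cc, if_neg h2] at h1
        have h3 : ψ 0 = ψ 1 := Fin.ext (by omega)
        exact absurd (hψ h3) (by simp)
  · intro hTC
    obtain ⟨x, hx, y, hy, hxy⟩ := (mem_filter.mp hTC).2
    obtain ⟨a, -, rfl⟩ := mem_image.mp hx
    obtain ⟨b, -, rfl⟩ := mem_image.mp hy
    by_contra hG
    rw [hGp] at hG
    have hall : ∀ a b, R (Fin.natAdd M a) (Fin.natAdd M b) := by
      have h1 := hG
      rw [hR _ hpc] at h1
      push Not at h1
      exact fun a b => h1 _ (mem_image_of_mem _ (mem_univ a)) _ (mem_image_of_mem _ (mem_univ b))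
    unfold Small at hs
    rw [not_and_or, not_not, not_le] at hs
    rcases hs with hs | hs
    · exact hG hs
    -- the class is large
    have hC : cls (d + 2) (pat G φ) (Fin.natAdd M 0) ⊆
        univ.image (Fin.natAdd M : Fin (d + 2) → Fin (M + (d + 2))) ∪
        ((univ : Finset (Fin M)).filter
          fun i => R (Fin.natAdd M 0) (Fin.castAdd (d + 2) i)).image (Fin.castAdd (d + 2)) := by
      intro j hj
      obtain ⟨e, he, heX, h0e, hje⟩ := (mem_filter.mp hj).2
      rw [hR _ he] at heX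
      push Not at heX
      have hRj := heX _ h0e _ hje
      rw [mem_union]
      refine Fin.addCases (motive := fun j => R (Fin.natAdd M 0) j → (j ∈ univ.image
        (Fin.natAdd M : Fin (d + 2) → Fin (M + (d + 2))) ∨ j ∈ ((univ : Finset (Fin M)).filter
          fun i => R (Fin.natAdd M 0) (Fin.castAdd (d + 2) i)).image (Fin.castAdd (d + 2))))
        ?_ ?_ j hRj
      · intro i hi
        exact Or.inr (mem_image_of_mem _ (mem_filter.mpr ⟨mem_univ _, hi⟩))
      · intro i _
        exact Or.inl (mem_image_of_mem _ (mem_univ _))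
    have hcard : d + 1 ≤ ((univ : Finset (Fin M)).filter
        fun i => R (Fin.natAdd M (0 : Fin (d + 2))) (Fin.castAdd (d + 2) i)).card := by
      have h1 := (card_le_card hC).trans (card_union_le _ _)
      rw [hpc, card_image_of_injective _ hqi] at h1
      omega
    have hsame : ∀ a : Fin (d + 2), (fun i : Fin M => Tog G φ0 d (ψ a) i) =
        fun i : Fin M => R (Fin.natAdd M (0 : Fin (d + 2))) (Fin.castAdd (d + 2) i) := by
      intro a
      funext i
      apply propext
      constructor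
      · intro h
        exact hR3 _ _ _ (hall 0 a) (T1 a i h)
      · intro h
        refine T2 a ?_ i (hR3 _ _ _ (hall a 0) h)
        refine hcard.trans (card_le_card ?_)
        intro j hj
        exact mem_filter.mpr ⟨mem_univ _, hR3 _ _ _ (hall a 0) (mem_filter.mp hj).2⟩
    have hset : ∀ a : Fin (d + 2), TogS G φ0 d (ψ a) =
        {i | ∃ hi : i < M, R (Fin.natAdd M (0 : Fin (d + 2))) (Fin.castAdd (d + 2) ⟨i, hi⟩)} := by
      intro a
      ext i
      unfold TogS
      simp only [Set.mem_ofPred_eq]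
      constructor
      · rintro ⟨hi, h⟩
        exact ⟨hi, (congrFun (hsame a) ⟨i, hi⟩).mp h⟩
      · rintro ⟨hi, h⟩
        exact ⟨hi, (congrFun (hsame a) ⟨i, hi⟩).mpr h⟩
    have hnon : ∀ a : Fin (d + 2), (TogS G φ0 d (ψ a)).Nonempty := by
      intro a
      rw [hset a]
      have h1 : 0 < ((univ : Finset (Fin M)).filter
        fun i => R (Fin.natAdd M (0 : Fin (d + 2))) (Fin.castAdd (d + 2) i)).card := by omega
      obtain ⟨i, hi⟩ := card_pos.mp h1
      exact ⟨i, i.2, (mem_filter.mp hi).2⟩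
    apply hxy
    unfold cc
    rw [if_pos (hnon a), if_pos (hnon b), hset a, hset b]

end point

/-- **The structure theorem.** -/
theorem structure_thm {d : ℕ} (hd : 1 ≤ d) (t : ℕ) {ε : ℝ} (hε : 0 < ε) :
    ∃ δ : ℝ, 0 < δ ∧ ∃ N : ℕ, ∀ n : ℕ, N ≤ n → ∀ G : Finset (Finset (Fin n)),
      (∀ e ∈ G, e.card = d + 2) → q3 d t n G ≤ δ →
      ∃ c : Fin n → ℕ, ((symmDiff G (TC (d + 2) c)).card : ℝ) ≤ ε * (n : ℝ) ^ (d + 2) := by
  set C : ℝ := ((2 * d + 2 : ℕ) : ℝ) ^ (d + 2) with hC
  have hC0 : 0 < C := by positivity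
  obtain ⟨M0, hM0⟩ := exists_nat_gt (8 * C / ε)
  set M : ℕ := M0 + 2 * (d + 2) ^ 2 with hM
  set k : ℕ := M + (d + 2) with hk
  have hk0 : 0 < k := by omega
  have hkR : (0 : ℝ) < k := by exact_mod_cast hk0
  have hkC : 8 * C < k * ε := by
    rw [div_lt_iff₀ hε] at hM0
    have : (M0 : ℝ) ≤ k := by
      have : M0 ≤ k := by omega
      exact_mod_cast this
    nlinarith
  obtain ⟨δ, hδ, N, hN⟩ := few_bad hd t k hk0 (η := ε / 4) (by positivity)
  obtain ⟨N2, hN2⟩ := exists_nat_gt (4 * (k : ℝ) ^ 2 / ε)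
  refine ⟨δ, hδ, max (max N N2) 1, fun n hn G hG hqd => ?_⟩
  have hn1 : 0 < n := (le_max_right _ _).trans hn
  have hn0 : (0 : ℝ) < n := by exact_mod_cast hn1
  have hnN2 : 4 * (k : ℝ) ^ 2 / ε < n :=
    hN2.trans_le (by exact_mod_cast (le_max_right _ _).trans ((le_max_left _ _).trans hn))
  rw [div_lt_iff₀ hε] at hnN2
  have hb := hN n ((le_max_left _ _).trans ((le_max_left _ _).trans hn)) G hqd
  set g0 : Fin (d + 2) → Fin k := Fin.natAdd M with hg0
  have hg0i : Function.Injective g0 := fun a b h => by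
    have := congrArg Fin.val h
    simp [hg0] at this
    exact Fin.ext this
  set S1 : Finset (Fin k → Fin n) := univ.filter fun φ => Function.Injective φ ∧
    ¬ ClassLike (d + 2) (pat G φ) with hS1
  set S2 : Finset (Fin k → Fin n) := univ.filter fun φ => ¬ Function.Injective φ with hS2
  set S3 : Finset (Fin k → Fin n) := univ.filter fun φ => Small d (pat G φ) g0 with hS3
  have c2 : (S2.card : ℝ) ≤ ε / 4 * (n : ℝ) ^ k := by
    have h1 : (S2.card : ℝ) ≤ (k : ℝ) ^ 2 * (n : ℝ) ^ (k - 1) := by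
      have := deg_count' k n
      exact_mod_cast this
    have h2 : (n : ℝ) ^ k = (n : ℝ) ^ (k - 1) * n := by
      rw [← pow_succ, Nat.sub_add_cancel hk0]
    rw [h2]
    have h3 : (0 : ℝ) < (n : ℝ) ^ (k - 1) := by positivity
    nlinarith
  have c3 : (S3.card : ℝ) ≤ ε / 4 * (n : ℝ) ^ k := by
    have h1 := sym_count d G hg0i
    have h2 : ((k.descFactorial (d + 2) : ℕ) : ℝ) * (S3.card : ℝ) ≤ (n : ℝ) ^ k * (k * C) := by
      rw [hC]
      exact_mod_cast h1
    have h3 := desc_lower (d + 2) k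
    have hr1 : d + 2 - 1 = d + 1 := by omega
    rw [hr1] at h3
    have h4 : ((d + 2 : ℕ) : ℝ) ^ 2 * (k : ℝ) ^ (d + 1) ≤ 1 / 2 * (k : ℝ) ^ (d + 2) := by
      have h5 : (2 : ℝ) * ((d + 2 : ℕ) : ℝ) ^ 2 ≤ k := by
        have : 2 * (d + 2) ^ 2 ≤ k := by omega
        exact_mod_cast this
      rw [pow_succ (k : ℝ) (d + 1)]
      have h6 : (0 : ℝ) < (k : ℝ) ^ (d + 1) := by positivity
      nlinarith
    have h5 : 1 / 2 * (k : ℝ) ^ (d + 2) ≤ ((k.descFactorial (d + 2) : ℕ) : ℝ) := by linarith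
    have h6 : (k : ℝ) ^ 2 ≤ (k : ℝ) ^ (d + 2) := by
      have h1k : (1 : ℝ) ≤ k := by exact_mod_cast hk0
      exact pow_le_pow_right₀ h1k (by omega)
    have h7 : 1 / 2 * (k : ℝ) ^ 2 * (S3.card : ℝ) ≤ (n : ℝ) ^ k * (k * C) := by
      have : 1 / 2 * (k : ℝ) ^ 2 ≤ ((k.descFactorial (d + 2) : ℕ) : ℝ) := by linarith
      exact (mul_le_mul_of_nonneg_right this (by positivity)).trans h2
    have h8 : k * (S3.card : ℝ) ≤ 2 * C * (n : ℝ) ^ k := by
      have : (k : ℝ) * (k * (S3.card : ℝ)) ≤ k * (2 * C * (n : ℝ) ^ k) := by nlinarith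
      exact le_of_mul_le_mul_left this hkR
    have h9 : k * (S3.card : ℝ) ≤ k * (ε / 4 * (n : ℝ) ^ k) := by
      have h10 : (0 : ℝ) < (n : ℝ) ^ k := by positivity
      nlinarith
    exact le_of_mul_le_mul_left h9 hkR
  set Bs : Finset (Fin k → Fin n) := S1 ∪ S2 ∪ S3 with hBs
  have hBc : (Bs.card : ℝ) ≤ 3 / 4 * ε * (n : ℝ) ^ k := by
    have h1 : Bs.card ≤ S1.card + S2.card + S3.card :=
      (card_union_le _ _).trans (Nat.add_le_add_right (card_union_le _ _) _)
    have h2 : (Bs.card : ℝ) ≤ (S1.card : ℝ) + S2.card + S3.card := by exact_mod_cast h1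
    have hb' : (S1.card : ℝ) ≤ ε / 4 * (n : ℝ) ^ k := hb
    linarith
  -- a good sample
  obtain ⟨φ0, hφ0⟩ : ∃ φ0 : Fin M → Fin n, (((univ : Finset (Fin (d + 2) → Fin n)).filter
      fun ψ => Fin.append φ0 ψ ∈ Bs).card : ℝ) ≤ ε * (n : ℝ) ^ (d + 2) := by
    by_contra hcon
    push Not at hcon
    have h1 : ∑ φ0 : Fin M → Fin n, ((univ : Finset (Fin (d + 2) → Fin n)).filter
        fun ψ => Fin.append φ0 ψ ∈ Bs).card ≤ Bs.card := by
      rw [← card_sigma]
      refine card_le_card_of_injOn (fun q => Fin.append q.1 q.2) ?_ ?_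
      · rintro ⟨φ0, ψ⟩ h
        exact mem_coe.mpr (mem_filter.mp (mem_sigma.mp (mem_coe.mp h)).2).2
      · rintro ⟨φ0, ψ⟩ - ⟨φ0', ψ'⟩ - h
        have h' : Fin.append φ0 ψ = Fin.append φ0' ψ' := h
        have e1 : φ0 = φ0' := by
          funext i
          rw [← Fin.append_left φ0 ψ, ← Fin.append_left φ0' ψ', h']
        have e2 : ψ = ψ' := by
          funext i
          rw [← Fin.append_right φ0 ψ, ← Fin.append_right φ0' ψ', h']
        rw [e1, e2]
    have h2 : ∑ φ0 : Fin M → Fin n, ε * (n : ℝ) ^ (d + 2) ≤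
        ∑ φ0 : Fin M → Fin n, (((univ : Finset (Fin (d + 2) → Fin n)).filter
        fun ψ => Fin.append φ0 ψ ∈ Bs).card : ℝ) := sum_le_sum fun φ0 _ => (hcon φ0).le
    rw [sum_const, card_univ, Fintype.card_fun, Fintype.card_fin, Fintype.card_fin,
      nsmul_eq_mul, ← Nat.cast_sum] at h2
    have h3 : ((∑ φ0 : Fin M → Fin n, ((univ : Finset (Fin (d + 2) → Fin n)).filter
        fun ψ => Fin.append φ0 ψ ∈ Bs).card : ℕ) : ℝ) ≤ Bs.card := by exact_mod_cast h1
    have h4 : ((n ^ M : ℕ) : ℝ) * (ε * (n : ℝ) ^ (d + 2)) = ε * (n : ℝ) ^ k := by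
      rw [hk, pow_add]; push_cast; ring
    rw [h4] at h2
    have h5 : (0 : ℝ) < ε * (n : ℝ) ^ k := by positivity
    linarith
  refine ⟨cc G φ0 d, ?_⟩
  have hsd : ∀ e ∈ symmDiff G (TC (d + 2) (cc G φ0 d)), e.card = d + 2 := by
    intro e he
    rw [mem_symmDiff] at he
    rcases he with he | he
    · exact hG e he.1
    · exact TC_card_mem he.1
  have h1 := QR_card (d + 2) _ hsd
  have h2 : QR (d + 2) (symmDiff G (TC (d + 2) (cc G φ0 d))) ⊆
      (univ : Finset (Fin (d + 2) → Fin n)).filter fun ψ => Fin.append φ0 ψ ∈ Bs := by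
    intro ψ hψ
    have h3 := (mem_filter.mp hψ).2.2
    refine mem_filter.mpr ⟨mem_univ _, ?_⟩
    by_contra hno
    rw [hBs, mem_union, mem_union, not_or, not_or] at hno
    obtain ⟨⟨n1, n2⟩, n3⟩ := hno
    have m2 : Function.Injective (Fin.append φ0 ψ) := by
      by_contra h
      exact n2 (mem_filter.mpr ⟨mem_univ _, h⟩)
    have m1 : ClassLike (d + 2) (pat G (Fin.append φ0 ψ)) := by
      by_contra h
      exact n1 (mem_filter.mpr ⟨mem_univ _, m2, h⟩)
    have m3 : ¬ Small d (pat G (Fin.append φ0 ψ)) (Fin.natAdd M) := fun h =>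
      n3 (mem_filter.mpr ⟨mem_univ _, h⟩)
    have h4 := point m2 m1 m3
    rw [mem_symmDiff] at h3
    rcases h3 with h3 | h3
    · exact h3.2 (h4.mp h3.1)
    · exact h3.2 (h4.mpr h3.1)
  have h3 := card_le_card h2
  rw [h1] at h3
  have h4 : (symmDiff G (TC (d + 2) (cc G φ0 d))).card ≤
      (d + 2).factorial * (symmDiff G (TC (d + 2) (cc G φ0 d))).card :=
    Nat.le_mul_of_pos_left _ (Nat.factorial_pos _)
  exact le_trans (by exact_mod_cast h4.trans h3) hφ0

end Pool.Agent.N442.ES
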