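import Mathlib
import Pool.Agent.N442.ES.Loc

/-!
# 3-graphs: one forbidden link graph is enough
-/

set_option autoImplicit false

open Finset
open scoped Classical

namespace Pool.Agent.N442.ES

open Pool.Agent.Y47.BU Pool.Agent.N442.LP

/-- `bound1` with a condition on complete patterns only -/
theorem bound1' {V : Type} [Fintype V] [Nonempty V] {P : V → V → V → Prop} (hP : IsPat P) (p : ℕ)
    (hcap : ∀ S : Finset V,
      (∀ a ∈ S, ∀ b ∈ S, ∀ c ∈ S, a ≠ b → b ≠ c → a ≠ c → P a b c) →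
      (∀ u ∈ S, ∀ v ∈ S, u ≠ v → P u u v) → S.card ≤ p)
    (hS : ∀ i j, i ≠ j → P i i j → P j j i)
    (hR : ∀ i j c, i ≠ j → Far P i j → P i j c → P i i c ∧ P j j c)
    (x : V → ℝ) (hx : Smp x) : 4 ≤ ((2 * p : ℕ) : ℝ) ^ 2 * (1 - T (ind P) x x x) := by
  obtain ⟨w, hw⟩ := exists_minMax (ind P)
  refine le_of_max hw ?_ x hx
  have hno : ∀ i j, i ≠ j → w i ≠ 0 → w j ≠ 0 → P i i j := by
    intro i j hij hi hj
    by_contra h
    exact no_pair hP hw hij (fun c hc => hR i j c hij
      ⟨h, fun h' => h (hS j i hij.symm h')⟩ hc) hi hj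
  have hX : ∀ a ∈ univ.filter (fun a => w a ≠ 0), ∀ b ∈ univ.filter (fun a => w a ≠ 0),
      ∀ c ∈ univ.filter (fun a => w a ≠ 0), a ≠ b → b ≠ c → a ≠ c → P a b c := by
    intro i hi j hj k hk hij hjk hik
    rw [mem_filter] at hi hj hk
    by_contra h
    have q1 := second_order (ind_sym hP) hw hij hi.2 hj.2
    have q2 := second_order (ind_sym hP) hw hjk hj.2 hk.2
    have q3 := second_order (ind_sym hP) hw hik hi.2 hk.2
    have q : ∑ c, w c * (2 * ind P i i c + 2 * ind P j j c + 2 * ind P k k c - 2 * ind P i j c -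
        2 * ind P j k c - 2 * ind P i k c) < 0 := by
      have e : ∑ c, w c * (2 * ind P i i c + 2 * ind P j j c + 2 * ind P k k c - 2 * ind P i j c -
          2 * ind P j k c - 2 * ind P i k c) =
          ∑ c, w c * (ind P i i c + ind P j j c - 2 * ind P i j c) +
          ∑ c, w c * (ind P j j c + ind P k k c - 2 * ind P j k c) +
          ∑ c, w c * (ind P i i c + ind P k k c - 2 * ind P i k c) := by
        rw [← sum_add_distrib, ← sum_add_distrib]
        refine sum_congr rfl fun c _ => ?_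
        ring
      rw [e]
      linarith
    refine absurd q (not_lt.mpr (sum_nonneg fun c _ => ?_))
    by_cases hc : w c = 0
    · rw [hc, zero_mul]
    refine mul_nonneg (hw.smp.1 c) ?_
    have hji := hno j i hij.symm hj.2 hi.2
    have hij' := hno i j hij hi.2 hj.2
    have hki := hno k i hik.symm hk.2 hi.2
    have hik' := hno i k hik hi.2 hk.2
    have hkj := hno k j hjk.symm hk.2 hj.2
    have hjk' := hno j k hjk hj.2 hk.2
    by_cases c1 : c = i
    · subst c1
      rw [ind_zero (hP.irr c), ind_one hji, ind_one hki, ind_one (hP.s23 hij'),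
        ind_one (hP.s23 hik'), ind_zero (fun h' => h (hP.s12 (hP.s23 h')))]
      norm_num
    by_cases c2 : c = j
    · subst c2
      rw [ind_zero (hP.irr c), ind_one hij', ind_one hkj, ind_one (hP.s12 (hP.s23 hji)),
        ind_one (hP.s23 hjk'), ind_zero (fun h' => h (hP.s23 h'))]
      norm_num
    by_cases c3 : c = k
    · subst c3
      rw [ind_zero (hP.irr c), ind_one hik', ind_one hjk', ind_one (hP.s12 (hP.s23 hki)),
        ind_one (hP.s12 (hP.s23 hkj)), ind_zero h]
      norm_num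
    rw [ind_one (hno i c (Ne.symm c1) hi.2 hc), ind_one (hno j c (Ne.symm c2) hj.2 hc),
      ind_one (hno k c (Ne.symm c3) hk.2 hc)]
    linarith [ind_le P i j c, ind_le P j k c, ind_le P i k c]
  refine fin_bound hP _ hw.smp _ (fun a ha => ?_) hX ?_
  · by_contra h
    exact ha (mem_filter.mpr ⟨mem_univ _, h⟩)
  · intro A S hAS hS' _
    have h1 := hcap S (fun a ha b hb c hc => hX a (hS' ha) b (hS' hb) c (hS' hc))
      (fun u hu v hv huv => hno u v huv (mem_filter.mp (hS' hu)).2 (mem_filter.mp (hS' hv)).2)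
    have h2 := card_le_card hAS
    omega

/-- copies of subgraphs -/
theorem HasPos.mono {α β : Type} {F : SimpleGraph α} {F' : SimpleGraph β} (j : F ↪g F')
    {k t n : ℕ} {G : Finset (Finset (Fin n))} {y : Fin k → Fin t → Fin n} (h : HasPos F' G y) :
    HasPos F G y := by
  obtain ⟨e, he, h1, h2, h3⟩ := h
  refine ⟨fun o => e (o.map j), ?_, ?_, ?_, ?_⟩
  · exact he.comp (Option.map_injective j.injective)
  · exact h1.comp j.injective
  · exact fun a => h2 (j a)
  · intro a b hab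
    rw [← j.map_rel_iff]
    exact h3 (j a) (j b) (fun h => hab (j.injective h))

/-- the embedding of `K_{s,s}` -/
def bipEmb {s s' : ℕ} (h : s ≤ s') : completeBipartiteGraph (Fin s) (Fin s) ↪g
    completeBipartiteGraph (Fin s') (Fin s') where
  toFun := Sum.map (Fin.castLE h) (Fin.castLE h)
  inj' := Sum.map_injective.mpr ⟨Fin.castLE_injective h, Fin.castLE_injective h⟩
  map_rel_iff' := by
    rintro (a | a) (b | b) <;> simp

/-- the embedding of `K_2 ∪ s K_1` -/
def eEmb {s s' : ℕ} (h : s ≤ s') : gE s ↪g gE s' where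
  toFun := Sum.map id (Fin.castLE h)
  inj' := Sum.map_injective.mpr ⟨Function.injective_id, Fin.castLE_injective h⟩
  map_rel_iff' := by
    rintro (a | a) (b | b) <;> simp [gE]

theorem free_kfree {f n : ℕ} {F : Finset (Finset (Fin f))} (hF : ∀ e ∈ F, e.card = 3)
    {G : Finset (Finset (Fin n))} (h : Free F G) : KFree f G := by
  intro S hS
  by_contra hcon
  push Not at hcon
  set g : Fin f ↪o Fin n := S.orderEmbOfFin hS with hg
  obtain ⟨e, he, heG⟩ := h g g.injective
  refine heG (hcon _ (mem_powersetCard.mpr ⟨?_, ?_⟩))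
  · intro x hx
    obtain ⟨a, -, rfl⟩ := mem_image.mp hx
    exact S.orderEmbOfFin_mem hS a
  · rw [card_image_of_injective _ g.injective, hF e he]

theorem cap_free {k s n f p : ℕ} (hfs : f ≤ s) {F : Finset (Finset (Fin f))}
    (hF : ∀ e ∈ F, e.card = 3) (hcol : Col (p + 1) F) {G : Finset (Finset (Fin n))}
    (hG : Free F G) {P : Fin k → Fin k → Fin k → Prop} (hP : IsPat P) {y : Fin k → Fin s → Fin n}
    (hR : Real G P y) (hI : Inj y) (S : Finset (Fin k))
    (hX : ∀ a ∈ S, ∀ b ∈ S, ∀ c ∈ S, a ≠ b → b ≠ c → a ≠ c → P a b c)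
    (hA : ∀ u ∈ S, ∀ v ∈ S, u ≠ v → P u u v) : S.card ≤ p := by
  by_contra hcon
  obtain ⟨c, hc⟩ := hcol
  obtain ⟨S', hS', hS'c⟩ := exists_subset_card_eq (s := S) (n := p + 1) (by omega)
  set ι : Fin (p + 1) ↪o Fin k := S'.orderEmbOfFin hS'c with hι
  have hιS : ∀ a, ι a ∈ S := fun a => hS' (S'.orderEmbOfFin_mem hS'c a)
  obtain ⟨e, he, heG⟩ := hG (fun v => y (ι (c v)) ⟨v, by omega⟩) (by
    intro v w hvw
    have h1 := (hI _ _ _ _ hvw).2
    exact Fin.ext (congrArg (fun x : Fin s => (x : ℕ)) h1))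
  apply heG
  obtain ⟨u, v, w, huv, huw, hvw, rfl⟩ := card_eq_three.mp (hF e he)
  rw [image_insert, image_insert, image_singleton]
  have q1 : ∀ {u v : Fin f}, u ≠ v → ((ι (c u), (⟨u, by omega⟩ : Fin s)) : Fin k × Fin s) ≠
      (ι (c v), ⟨v, by omega⟩) := by
    intro u v huv h
    have := congrArg (fun x : Fin k × Fin s => (x.2 : ℕ)) h
    exact huv (Fin.ext this)
  rw [hR _ _ _ _ _ _ (q1 huv) (q1 hvw) (q1 huw)]
  obtain ⟨x, hx, z, hz, hxz⟩ := hc _ he
  have hnc : ¬ (c u = c v ∧ c v = c w) := by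
    rintro ⟨e1, e2⟩
    have key : ∀ x ∈ ({u, v, w} : Finset (Fin f)), c x = c u := by
      intro x hx
      simp only [mem_insert, mem_singleton] at hx
      rcases hx with rfl | rfl | rfl
      · rfl
      · exact e1.symm
      · exact (e1.trans e2).symm
    exact hxz ((key x hx).trans (key z hz).symm)
  by_cases h1 : c u = c v
  · have h2 : c u ≠ c w := fun h => hnc ⟨h1, h1.symm.trans h⟩
    rw [← h1]
    exact hA _ (hιS _) _ (hιS _) (fun h => h2 (ι.injective h))
  · by_cases h2 : c v = c w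
    · rw [← h2]
      exact hP.s12 (hP.s23 (hA _ (hιS _) _ (hιS _) (fun h => h1 (ι.injective h).symm)))
    · by_cases h3 : c u = c w
      · rw [← h3]
        exact hP.s23 (hA _ (hιS _) _ (hιS _) (fun h => h1 (ι.injective h)))
      · exact hX _ (hιS _) _ (hιS _) _ (hιS _) (fun h => h1 (ι.injective h))
          (fun h => h2 (ι.injective h)) (fun h => h3 (ι.injective h))

/-- **Local theorem for 3-graphs.** -/
theorem loc3 {f p : ℕ} (hp : 1 ≤ p) {F : Finset (Finset (Fin f))} (hF : ∀ e ∈ F, e.card = 3)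
    (hcol : Col (p + 1) F) (t k : ℕ) (hk : 0 < k) : ∃ T : ℕ, 0 < T ∧
    ∀ (n : ℕ) (G : Finset (Finset (Fin n))), Free F G →
    ∀ (X : Finset (Finset (Fin k))) (y : Fin k → Fin T → Fin n),
    (∀ f : Fin k → Fin T, (fun i => y i (f i)) ∈ SR 3 G X) → (∀ i, Function.Injective (y i)) →
    rho (2 * p) * (k : ℝ) ^ 3 < ((QR 3 X).card : ℝ) →
    HasPos (completeBipartiteGraph (Fin t) (Fin t)) G y ∧ HasPos (gE t) G y := by
  obtain ⟨T', hT, h⟩ := loc f k (t + f)
  refine ⟨T', by omega, fun n G hG X y hsel' hinj hX' => ?_⟩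
  have hK := free_kfree hF hG
  have hsel : ∀ f : Fin k → Fin T', (fun i => y i (f i)) ∈ SX G X := by
    intro f
    obtain ⟨h1, h2⟩ := (mem_filter.mp (hsel' f)).2
    refine mem_filter.mpr ⟨mem_univ _, h1, fun a b c hab hbc hac => ?_⟩
    have h3 := h2 {a, b, c} (card_eq_three.mpr ⟨a, b, c, hab, hac, hbc, rfl⟩)
    rw [image_insert, image_insert, image_singleton] at h3
    exact h3
  have hX : rho (2 * p) * (k : ℝ) ^ 3 < ((QT X).card : ℝ) := by
    have : QR 3 X = QT X := by
      ext g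
      unfold QR QT
      rw [mem_filter, mem_filter]
      have : (univ : Finset (Fin 3)).image g = {g 0, g 1, g 2} := by
        ext x
        simp only [mem_image, mem_univ, true_and, mem_insert, mem_singleton]
        constructor
        · rintro ⟨a, rfl⟩
          fin_cases a
          · exact Or.inl rfl
          · exact Or.inr (Or.inl rfl)
          · exact Or.inr (Or.inr rfl)
        · rintro (rfl | rfl | rfl)
          · exact ⟨0, rfl⟩
          · exact ⟨1, rfl⟩
          · exact ⟨2, rfl⟩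
      rw [this]
    rw [← this]
    exact hX'
  obtain ⟨P, z, hP, hz, hI, hR, hPX⟩ := h n G hK X y hsel hinj
  have : Nonempty (Fin k) := ⟨⟨0, hk⟩⟩
  have hcap := fun S h1 h2 => cap_free (show f ≤ t + f + 2 by omega) hF hcol hG hP hR hI S h1 h2
  have hpp : 0 < 2 * p := by omega
  constructor
  · refine HasPos.mono (bipEmb (show t ≤ t + f by omega)) ?_
    by_contra hno
    have hno' : ¬ HasPos (completeBipartiteGraph (Fin (t + f)) (Fin (t + f))) G
        (fun i a => y i (z i a)) := fun h => hno (h.comp hz)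
    have hS : ∀ i j, i ≠ j → P i i j → P j j i := by
      intro i j hij h1
      by_contra h2
      exact hno' (posK hP hR hI hij hij.symm h2 (hP.irr i) (hP.s23 h1))
    have rule : ∀ i j c, i ≠ j → Far P i j → P i j c → P i i c := by
      intro i j c hij hf hc
      by_contra hn
      have hic : i ≠ c := by
        rintro rfl
        exact hf.1 (hP.s23 hc)
      have hjc : j ≠ c := by
        rintro rfl
        exact hf.2 (hP.s23 (hP.s12 hc))
      exact hno' (posK hP hR hI hij hjc hf.2 (fun e => hn (hS c i hic.symm e)) hc)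
    have hb := bound1' hP p hcap hS (fun i j c hij hf hc => ⟨rule i j c hij hf hc,
      rule j i c hij.symm ⟨hf.2, hf.1⟩ (hP.s12 hc)⟩) (fun _ => 1 / (k : ℝ)) (smp_uniform hk)
    exact absurd hX (not_lt.mpr (rho_le hpp (T_uniform hPX) hb))
  · refine HasPos.mono (eEmb (show t ≤ t + f by omega)) ?_
    by_contra hno
    have hno' : ¬ HasPos (gE (t + f)) G (fun i a => y i (z i a)) := fun h => hno (h.comp hz)
    have hS : ∀ i j, i ≠ j → P i i j → P j j i := by
      intro i j hij h1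
      by_contra h2
      exact hno' (posE hP hR hI hij h1 h2)
    have rule : ∀ i j c, i ≠ j → Far P i j → P i j c → P i i c := by
      intro i j c hij hf hc
      by_contra hn
      have hic : i ≠ c := by
        rintro rfl
        exact hf.1 (hP.s23 hc)
      have hjc : j ≠ c := by
        rintro rfl
        exact hf.2 (hP.s23 (hP.s12 hc))
      exact hno' (posE' hP hR hI hij hic hjc hf.1 hn hc)
    have hb := bound1' hP p hcap hS (fun i j c hij hf hc => ⟨rule i j c hij hf hc,
      rule j i c hij.symm ⟨hf.2, hf.1⟩ (hP.s12 hc)⟩) (fun _ => 1 / (k : ℝ)) (smp_uniform hk)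
    exact absurd hX (not_lt.mpr (rho_le hpp (T_uniform hPX) hb))

theorem rho_two (p : ℕ) : rho (2 * p) = 1 - 1 / (p : ℝ) ^ 2 := by
  unfold rho
  rw [Nat.cast_mul, Nat.cast_ofNat, mul_pow]
  rw [show (2 : ℝ) ^ 2 = 4 by norm_num, ← div_div, div_self (by norm_num)]

/-- **`K_{t,t}` in the links of 3-graphs.** -/
theorem upper3K {f p : ℕ} (hp : 1 ≤ p) {F : Finset (Finset (Fin f))} (hF : ∀ e ∈ F, e.card = 3)
    (hcol : Col (p + 1) F) (t : ℕ) {ε : ℝ} (hε : 0 < ε) : ∃ δ : ℝ, 0 < δ ∧ ∃ N : ℕ,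
    ∀ n : ℕ, N ≤ n → ∀ G : Finset (Finset (Fin n)), (∀ e ∈ G, e.card = 3) → Free F G →
      qd (completeBipartiteGraph (Fin t) (Fin t)) n G ≤ δ →
      (G.card : ℝ) ≤ (1 - 1 / (p : ℝ) ^ 2 + ε) * (n.choose 3 : ℝ) := by
  rw [← rho_two]
  exact main_r 3 (rho (2 * p)) (fun _ G => Free F G) (B0 (completeBipartiteGraph (Fin t) (Fin t)))
    (fun n G => qd (completeBipartiteGraph (Fin t) (Fin t)) n G) (rho_nonneg (by omega)) (by omega)
    (hq1 _) (fun k hk => by
      obtain ⟨T, hT, h⟩ := loc3 hp hF hcol t k hk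
      exact ⟨T, hT, fun n G hK X y h1 h2 h3 => (h n G hK X y h1 h2 h3).1⟩) hε

/-- **`K_2 ∪ t K_1` in the links of 3-graphs.** -/
theorem upper3E {f p : ℕ} (hp : 1 ≤ p) {F : Finset (Finset (Fin f))} (hF : ∀ e ∈ F, e.card = 3)
    (hcol : Col (p + 1) F) (t : ℕ) {ε : ℝ} (hε : 0 < ε) : ∃ δ : ℝ, 0 < δ ∧ ∃ N : ℕ,
    ∀ n : ℕ, N ≤ n → ∀ G : Finset (Finset (Fin n)), (∀ e ∈ G, e.card = 3) → Free F G →
      qd (gE t) n G ≤ δ →
      (G.card : ℝ) ≤ (1 - 1 / (p : ℝ) ^ 2 + ε) * (n.choose 3 : ℝ) := by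
  rw [← rho_two]
  exact main_r 3 (rho (2 * p)) (fun _ G => Free F G) (B0 (gE t))
    (fun n G => qd (gE t) n G) (rho_nonneg (by omega)) (by omega)
    (hq1 _) (fun k hk => by
      obtain ⟨T, hT, h⟩ := loc3 hp hF hcol t k hk
      exact ⟨T, hT, fun n G hK X y h1 h2 h3 => (h n G hK X y h1 h2 h3).2⟩) hε

end Pool.Agent.N442.ES
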